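import Mathlib

/-!
# Decompositions into trees
-/

set_option autoImplicit false

namespace Pool.Agent.W2helper97.TT

/-- `G` decomposes into `k` trees: there are `k` pairwise edge-disjoint subgraphs of `G`, each of
them a tree, whose union is `G`. -/
def TreeDecomp {V : Type} (G : SimpleGraph V) (k : ℕ) : Prop :=
  ∃ H : Fin k → G.Subgraph, (∀ i, (H i).coe.IsTree) ∧
    (∀ i j, i ≠ j → Disjoint (H i).edgeSet (H j).edgeSet) ∧ (⨆ i, H i) = ⊤

/-- The tree thickness: the minimum number of trees in a decomposition. -/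
noncomputable def treeThickness {V : Type} (G : SimpleGraph V) : ℕ := sInf {k | TreeDecomp G k}

/-- The edges of `G` are covered by two forests. -/
def TwoForests {V : Type} (G : SimpleGraph V) : Prop :=
  ∃ F₁ F₂ : SimpleGraph V, F₁.IsAcyclic ∧ F₂.IsAcyclic ∧ G ≤ F₁ ⊔ F₂

end Pool.Agent.W2helper97.TT
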