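import Pool.Agent.W2helper97.TT.Own
import Pool.Agent.W2helper97.TT.Defs

/-!
# The upper bound
-/

set_option autoImplicit false

namespace Pool.Agent.W2helper97.TT

open SimpleGraph

variable {V : Type}

/-- a component of the forest as a subgraph of `G` -/
def compSub {G F : SimpleGraph V} (hF : F ≤ G) (C : F.ConnectedComponent) : G.Subgraph where
  verts := C.supp
  Adj x y := F.Adj x y ∧ x ∈ C.supp
  adj_sub h := hF h.1
  edge_vert h := h.2
  symm := ⟨fun _ _ h => ⟨h.1.symm, mem_supp_of_adj h.1 h.2⟩⟩

/-- the spanning tree as a subgraph of `G` -/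
def spanSub {G T : SimpleGraph V} (hT : T ≤ G) : G.Subgraph where
  verts := Set.univ
  Adj x y := T.Adj x y
  adj_sub h := hT h
  edge_vert _ := Set.mem_univ _
  symm := ⟨fun _ _ h => h.symm⟩

theorem compSub_tree {G F : SimpleGraph V} (hF : F ≤ G) (h : F.IsAcyclic)
    (C : F.ConnectedComponent) : (compSub hF C).coe.IsTree := by
  have h1 := h.isTree_connectedComponent C
  have h2 : (compSub hF C).coe = C.toSimpleGraph := by
    ext x y
    change (F.Adj x.1 y.1 ∧ x.1 ∈ C.supp) ↔ F.Adj x.1 y.1
    exact ⟨fun h => h.1, fun h => ⟨h, x.2⟩⟩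
  rw [h2]
  exact h1

theorem spanSub_tree {G T : SimpleGraph V} (hT : T ≤ G) (h : T.IsTree) :
    (spanSub hT).coe.IsTree := by
  have e : T ≃g (spanSub hT).coe :=
    { toEquiv := (Equiv.Set.univ V).symm
      map_rel_iff' := Iff.rfl }
  exact e.isTree_iff.1 h

theorem treeDecomp_of_good [Finite V] {G T F : SimpleGraph V} (h : Good G T F) :
    TreeDecomp G (Nat.card (Comps F) + 1) := by
  classical
  have hTG : T ≤ G := h.sup ▸ le_sup_left
  have hFG : F ≤ G := h.sup ▸ le_sup_right
  have hcard : Nat.card (Option (Comps F)) = Nat.card (Comps F) + 1 := Finite.card_option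
  obtain ⟨e⟩ : Nonempty (Fin (Nat.card (Comps F) + 1) ≃ Option (Comps F)) := by
    rw [← hcard]
    exact ⟨(Finite.equivFin _).symm⟩
  let K : Option (Comps F) → G.Subgraph := fun o => o.elim (spanSub hTG) fun C => compSub hFG C.1
  refine ⟨fun i => K (e i), ?_, ?_, ?_⟩
  · intro i
    change (K (e i)).coe.IsTree
    rcases e i with _ | C
    · exact spanSub_tree hTG h.tree
    · exact compSub_tree hFG h.acyc C.1
  · have key : ∀ o o', o ≠ o' → Disjoint (K o).edgeSet (K o').edgeSet := by
      have h1 : ∀ C : Comps F, Disjoint (spanSub hTG).edgeSet (compSub hFG C.1).edgeSet := by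
        intro C
        rw [Set.disjoint_left]
        intro x
        induction x with
        | _ u v =>
          intro h1 h2
          exact not_both h.disj h1 h2.1
      rintro (_ | C) (_ | C') hne
      · exact absurd rfl hne
      · exact h1 C'
      · exact (h1 C).symm
      · rw [Set.disjoint_left]
        intro x
        induction x with
        | _ u v =>
          intro h1 h2
          have hCC : C.1 ≠ C'.1 := fun hh => hne (by rw [Subtype.ext hh])
          exact ne_of_comp hCC h1.2 h2.2 rfl
    exact fun i j hij => key _ _ fun hh => hij (e.injective hh)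
  · have h1 : (⨆ i, K (e i)) = ⨆ o, K o := e.iSup_comp
    rw [h1]
    apply Subgraph.ext
    · rw [Subgraph.verts_iSup, Subgraph.verts_top, Set.eq_univ_iff_forall]
      intro x
      rw [Set.mem_iUnion]
      exact ⟨none, Set.mem_univ _⟩
    · ext u v
      rw [Subgraph.iSup_adj, Subgraph.top_adj]
      constructor
      · rintro ⟨o, ho⟩
        exact (K o).adj_sub ho
      · intro huv
        rw [← h.sup] at huv
        rcases huv with huv | huv
        · exact ⟨none, huv⟩
        · exact ⟨some ⟨F.connectedComponentMk u, u, v, huv, rfl⟩, huv, rfl⟩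

/-- **Upper bound.** A connected triangle-free graph on `n` vertices whose edges are covered by two
forests decomposes into at most `⌊n / 4⌋ + 1` trees. -/
theorem treeThickness_le [Finite V] {G : SimpleGraph V} (hG : G.Connected) (h3 : G.CliqueFree 3)
    (h2 : TwoForests G) : treeThickness G ≤ Nat.card V / 4 + 1 := by
  obtain ⟨F1, F2, hF1, hF2, hle⟩ := h2
  obtain ⟨T, F, hg⟩ := exists_good hG hF1 hF2 hle
  obtain ⟨T, F, hg⟩ := exists_min2 hg
  have h1 := card_comps_le hg h3
  have h4 : treeThickness G ≤ Nat.card (Comps F) + 1 :=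
    Nat.sInf_le (treeDecomp_of_good hg.min1.good)
  omega

end Pool.Agent.W2helper97.TT
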