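import Pool.Agent.W2helper97.TT.Defs
import Pool.Agent.TH455.PlanarSparse
import Pool.Agent.H758R3.DirRado

/-!
# Sparse graphs are covered by two forests
-/

set_option autoImplicit false

namespace Pool.Agent.W2helper97.TT

open SimpleGraph Pool.Agent.TH455
open Pool.Agent.H239R2.Planar (IsPlanar HasStraightLineDrawing)

variable {V : Type}

/-- the vector of an edge -/
noncomputable def ev (e : Sym2 V) : V → ℚ := by
  classical exact Pi.single e.out.1 1 - Pi.single e.out.2 1

open Classical in
theorem ev_mk (u v : V) : ev s(u, v) = Pi.single u 1 - Pi.single v 1 ∨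
    ev s(u, v) = -(Pi.single u 1 - Pi.single v 1) := by
  have h1 : s((s(u, v)).out.1, (s(u, v)).out.2) = s(u, v) := by
    have := (s(u, v)).out_eq
    exact this
  unfold ev
  rw [Sym2.eq_iff] at h1
  rcases h1 with ⟨h1, h2⟩ | ⟨h1, h2⟩
  · left
    rw [h1, h2]
  · right
    rw [h1, h2, neg_sub]

open Classical in
theorem single_mem (S : Submodule ℚ (V → ℚ)) {u v : V} (h : ev s(u, v) ∈ S) :
    (Pi.single u 1 - Pi.single v 1 : V → ℚ) ∈ S := by
  rcases ev_mk u v with h1 | h1
  · rwa [h1] at h
  · rw [h1] at h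
    exact (S.neg_mem_iff).1 h

open Classical in
theorem single_reach (S : Submodule ℚ (V → ℚ)) {H : SimpleGraph V}
    (hS : ∀ u v, H.Adj u v → ev s(u, v) ∈ S) {u v : V} (h : H.Reachable u v) :
    (Pi.single u 1 - Pi.single v 1 : V → ℚ) ∈ S := by
  obtain ⟨w⟩ := h
  induction w with
  | nil => simp
  | cons hadj _ ih =>
    have := S.add_mem (single_mem S (hS _ _ hadj)) ih
    simpa using this

/-- a set of edges with linearly independent vectors is a forest -/
theorem acyclic_of_indep {A : Set (Sym2 V)} (hA : ∀ e ∈ A, ¬ e.IsDiag)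
    (h : LinearIndependent ℚ (fun e : A => ev e.1)) : (fromEdgeSet A).IsAcyclic := by
  classical
  rw [isAcyclic_iff_forall_adj_isBridge]
  intro u v huv
  rw [isBridge_iff]
  intro hr
  have hmem : s(u, v) ∈ A := (fromEdgeSet_adj _ |>.1 huv).1
  have h1 := h.notMem_span_image (s := {e | e.1 ≠ s(u, v)}) (x := ⟨s(u, v), hmem⟩) (by simp)
  apply h1
  set S := Submodule.span ℚ ((fun e : A => ev e.1) '' {e | e.1 ≠ s(u, v)}) with hS
  have h2 := single_reach S (H := (fromEdgeSet A) \ fromEdgeSet {s(u, v)}) ?_ hr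
  · rcases ev_mk u v with h3 | h3
    · rw [h3]; exact h2
    · rw [h3]; exact S.neg_mem h2
  · intro x y hxy
    rw [sdiff_adj, fromEdgeSet_adj, fromEdgeSet_adj] at hxy
    obtain ⟨⟨h4, h5⟩, h6⟩ := hxy
    apply Submodule.subset_span
    refine ⟨⟨s(x, y), h4⟩, ?_, rfl⟩
    intro h7
    exact h6 ⟨h7, h5⟩

open Classical in
theorem span_top_le [Fintype V] (A : Finset (Sym2 V)) :
    Fintype.card V ≤ Module.finrank ℚ (Submodule.span ℚ (ev '' (A : Set (Sym2 V)))) +
      Fintype.card (fromEdgeSet (A : Set (Sym2 V))).ConnectedComponent := by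
  set H := fromEdgeSet (A : Set (Sym2 V)) with hH
  set R := Submodule.span ℚ (ev '' (A : Set (Sym2 V))) with hR
  set b : H.ConnectedComponent → (V → ℚ) := fun c => Pi.single c.out 1 with hb
  have h1 : (⊤ : Submodule ℚ (V → ℚ)) ≤ R ⊔ Submodule.span ℚ (Set.range b) := by
    intro x _
    rw [← Finset.univ_sum_single x]
    refine Submodule.sum_mem _ fun v _ => ?_
    have h2 : (Pi.single v (x v) : V → ℚ) = x v • (Pi.single v 1) := by
      rw [← Pi.single_smul]; simp
    rw [h2]
    apply Submodule.smul_mem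
    have h3 : (Pi.single v 1 : V → ℚ) = (Pi.single v 1 - Pi.single (H.connectedComponentMk v).out 1)
        + Pi.single (H.connectedComponentMk v).out 1 := by simp
    rw [h3]
    refine Submodule.add_mem_sup ?_ (Submodule.subset_span ⟨H.connectedComponentMk v, rfl⟩)
    apply single_reach (H := H)
    · intro u v huv
      apply Submodule.subset_span
      exact ⟨s(u, v), (fromEdgeSet_adj _ |>.1 huv).1, rfl⟩
    · apply ConnectedComponent.exact
      exact (Quot.out_eq (H.connectedComponentMk v)).symm
  have h2 := Submodule.finrank_mono h1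
  rw [finrank_top, Module.finrank_fintype_fun_eq_card] at h2
  have h3 := Submodule.finrank_add_le_finrank_add_finrank R (Submodule.span ℚ (Set.range b))
  have h4 : Module.finrank ℚ (Submodule.span ℚ (Set.range b)) ≤ Fintype.card H.ConnectedComponent :=
    finrank_range_le_card b
  omega

/-- the rank condition of the matroid union theorem -/
theorem card_le_two_rank [Fintype V] {G : SimpleGraph V} (hG : Sparse (gi G))
    (A : Finset (Sym2 V)) (hA : (A : Set (Sym2 V)) ⊆ G.edgeSet) :
    A.card ≤ 2 * Module.finrank ℚ (Submodule.span ℚ (ev '' (A : Set (Sym2 V)))) := by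
  classical
  set H := fromEdgeSet (A : Set (Sym2 V)) with hH
  have h1 := span_top_le A
  rw [← hH] at h1
  -- the component of an edge
  have hcomp : ∀ e : Sym2 V, e ∈ A → ∃ C : H.ConnectedComponent, ∀ v ∈ e, v ∈ C.supp := by
    intro e he
    induction e with
    | _ u v =>
      have hne : u ≠ v := by
        have := hA he
        rw [mem_edgeSet] at this
        exact this.ne
      have hadj : H.Adj u v := (fromEdgeSet_adj _).2 ⟨he, hne⟩
      refine ⟨H.connectedComponentMk u, ?_⟩
      intro w hw
      rw [Sym2.mem_iff] at hw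
      rcases hw with rfl | rfl
      · rfl
      · exact mem_supp_of_adj' hadj
  have hsub : A ⊆ (Finset.univ : Finset H.ConnectedComponent).biUnion
      (fun C => eIn G (C.supp.toFinset)) := by
    intro e he
    obtain ⟨C, hC⟩ := hcomp e he
    rw [Finset.mem_biUnion]
    refine ⟨C, Finset.mem_univ _, ?_⟩
    unfold eIn
    rw [Finset.mem_filter, Finset.mem_sym2_iff]
    refine ⟨fun a ha => ?_, hA he⟩
    rw [Set.mem_toFinset]
    exact hC a ha
  have h2 := Finset.card_le_card hsub
  have h3 : ∀ C : H.ConnectedComponent, (eIn G (C.supp.toFinset)).card + 2 ≤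
      2 * C.supp.toFinset.card := by
    intro C
    have h4 := hG C.supp.toFinset (by
      obtain ⟨v, hv⟩ := C.nonempty_supp
      exact ⟨v, Set.mem_toFinset.2 hv⟩)
    rw [I2_eq_edges] at h4
    omega
  have h5 : ∑ C : H.ConnectedComponent, C.supp.toFinset.card = Fintype.card V := by
    rw [← Finset.card_univ, ← Finset.card_biUnion]
    · congr 1
      ext v
      simp
    · intro C _ C' _ hne
      rw [Function.onFun, Finset.disjoint_left]
      intro v hv hv'
      rw [Set.mem_toFinset, ConnectedComponent.mem_supp_iff] at hv hv'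
      exact hne (hv.symm.trans hv')
  have h6 : ∑ C : H.ConnectedComponent, (eIn G (C.supp.toFinset)).card +
      2 * Fintype.card H.ConnectedComponent ≤ 2 * Fintype.card V := by
    rw [← h5, Finset.mul_sum, mul_comm 2, ← smul_eq_mul, ← Finset.card_univ,
      ← Finset.sum_const, ← Finset.sum_add_distrib]
    exact Finset.sum_le_sum fun C _ => h3 C
  have h7 := Finset.card_biUnion_le (s := (Finset.univ : Finset H.ConnectedComponent))
    (t := fun C => eIn G (C.supp.toFinset))
  omega
where
  mem_supp_of_adj' {V : Type} {H : SimpleGraph V} {a b : V} (h : H.Adj a b) :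
      b ∈ (H.connectedComponentMk a).supp := by
    rw [ConnectedComponent.mem_supp_iff]
    exact (ConnectedComponent.connectedComponentMk_eq_of_adj h).symm

theorem twoForests_of_sparse [Fintype V] {G : SimpleGraph V} (hG : Sparse (gi G)) :
    TwoForests G := by
  classical
  obtain ⟨c, hc1, hc2⟩ := H758R3.Dir.cover (F := ℚ) (ev (V := V)) 2 G.edgeFinset (by
    intro J hJ
    apply card_le_two_rank hG J
    intro e he
    have := hJ he
    rwa [mem_edgeFinset] at this)
  have hnd : ∀ κ : Fin 2, ∀ e ∈ ((G.edgeFinset.filter (fun e => κ ∈ c e) : Finset (Sym2 V)) :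
      Set (Sym2 V)), ¬ e.IsDiag := by
    intro κ e he
    rw [Finset.mem_coe, Finset.mem_filter, mem_edgeFinset] at he
    exact G.not_isDiag_of_mem_edgeSet he.1
  refine ⟨fromEdgeSet (G.edgeFinset.filter (fun e => (0 : Fin 2) ∈ c e) : Finset (Sym2 V)),
    fromEdgeSet (G.edgeFinset.filter (fun e => (1 : Fin 2) ∈ c e) : Finset (Sym2 V)),
    acyclic_of_indep (hnd 0) (hc2 0), acyclic_of_indep (hnd 1) (hc2 1), ?_⟩
  intro u v huv
  have hmem : s(u, v) ∈ G.edgeFinset := by
    rw [mem_edgeFinset]
    exact huv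
  have h1 := hc1 _ hmem
  rw [Finset.card_eq_one] at h1
  obtain ⟨κ, hκ⟩ := h1
  rw [sup_adj, fromEdgeSet_adj, fromEdgeSet_adj]
  have hκ2 : κ = 0 ∨ κ = 1 := by
    revert κ
    intro κ _
    fin_cases κ <;> simp
  rcases hκ2 with rfl | rfl
  · left
    refine ⟨?_, huv.ne⟩
    rw [Finset.mem_coe, Finset.mem_filter]
    exact ⟨hmem, by rw [hκ]; simp⟩
  · right
    refine ⟨?_, huv.ne⟩
    rw [Finset.mem_coe, Finset.mem_filter]
    exact ⟨hmem, by rw [hκ]; simp⟩

/-- planar triangle-free graphs are covered by two forests -/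
theorem twoForests_of_planar [Finite V] {G : SimpleGraph V} (hp : PlanarAny G)
    (h3 : G.CliqueFree 3) : TwoForests G := by
  have := Fintype.ofFinite V
  exact twoForests_of_sparse (planar_free_sparse hp h3)

end Pool.Agent.W2helper97.TT
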