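import Pool.Agent.W2helper97.TT.Count
import Pool.Agent.H239R2.Cover.PlanarDefs

/-!
# A string of four-cycles
-/

set_option autoImplicit false

namespace Pool.Agent.W2helper97.TT

open SimpleGraph
open Pool.Agent.H239R2.Planar (HasStraightLineDrawing)

/-- the edges of the string of four-cycles -/
def SE (i j : ℕ) : Prop := (j = i + 1 ∧ i % 4 ≠ 3) ∨ (j = i + 3 ∧ i % 4 = 0) ∨ (j = i + 4 ∧ i % 4 = 0)

/-- the string of four-cycles on `n` vertices -/
def Str (n : ℕ) : SimpleGraph (Fin n) where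
  Adj u v := SE u v ∨ SE v u
  symm := ⟨fun _ _ h => h.symm⟩
  loopless := ⟨fun v h => by unfold SE at h; omega⟩

/-- the neighbour of a vertex with a smaller number -/
def pr (v : ℕ) : ℕ := if v % 4 = 0 then v - 4 else v - 1

theorem pr_lt {v : ℕ} (hv : v ≠ 0) : pr v < v := by
  unfold pr
  split_ifs <;> omega

theorem SE_pr {v : ℕ} (hv : v ≠ 0) : SE (pr v) v := by
  unfold pr SE
  split_ifs <;> omega

theorem str_connected (n : ℕ) (hn : 1 ≤ n) : (Str n).Connected := by
  have : Nonempty (Fin n) := ⟨⟨0, by omega⟩⟩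
  have key : ∀ m (hm : m < n), (Str n).Reachable ⟨m, hm⟩ ⟨0, by omega⟩ := by
    intro m
    induction m using Nat.strong_induction_on with
    | _ m ih =>
      intro hm
      by_cases h0 : m = 0
      · subst h0
        exact Reachable.refl _
      · have h1 := pr_lt h0
        have h2 : (Str n).Adj ⟨m, hm⟩ ⟨pr m, by omega⟩ := Or.inr (SE_pr h0)
        exact h2.reachable.trans (ih (pr m) h1 (by omega))
  exact ⟨fun u v => (key u.1 u.2).trans (key v.1 v.2).symm⟩

theorem str_free (n : ℕ) : (Str n).CliqueFree 3 := by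
  have hc : (Str n).Colorable 2 := by
    refine ⟨Coloring.mk (fun v => (⟨(v.1 / 4 + v.1 % 4) % 2, Nat.mod_lt _ (by norm_num)⟩ : Fin 2)) ?_⟩
    intro u v huv he
    rw [Fin.mk.injEq] at he
    rcases huv with h | h
    · unfold SE at h
      omega
    · unfold SE at h
      omega
  exact hc.cliqueFree (by norm_num)

theorem str_edges (n : ℕ) (hn : 1 ≤ n) : (Str n).edgeSet.ncard + 1 ≤ n + n / 4 := by
  classical
  let A : Finset (Sym2 (Fin n)) := (Finset.univ.erase (⟨0, by omega⟩ : Fin n)).image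
    (fun v => s(v, (⟨pr v.1, by
      rcases Nat.eq_zero_or_pos v.1 with h | h
      · rw [h]; unfold pr; simp; omega
      · exact (pr_lt (by omega)).trans v.2⟩ : Fin n)))
  let B : Finset (Sym2 (Fin n)) := (Finset.univ : Finset (Fin (n / 4))).image
    (fun j => s((⟨4 * j.1, by omega⟩ : Fin n), (⟨4 * j.1 + 3, by omega⟩ : Fin n)))
  have hsub : (Str n).edgeSet ⊆ ((A ∪ B : Finset (Sym2 (Fin n))) : Set (Sym2 (Fin n))) := by
    have key : ∀ u v : Fin n, SE u v → s(u, v) ∈ A ∪ B := by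
      intro u v huv
      rw [Finset.mem_union]
      by_cases hB : v.1 = u.1 + 3 ∧ u.1 % 4 = 0
      · right
        rw [Finset.mem_image]
        refine ⟨⟨u.1 / 4, by omega⟩, Finset.mem_univ _, ?_⟩
        have h1 : (⟨4 * (u.1 / 4), by omega⟩ : Fin n) = u := Fin.ext (by dsimp only; omega)
        have h2 : (⟨4 * (u.1 / 4) + 3, by omega⟩ : Fin n) = v := Fin.ext (by dsimp only; omega)
        dsimp only
        rw [h1, h2]
      · left
        rw [Finset.mem_image]
        refine ⟨v, ?_, ?_⟩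
        · rw [Finset.mem_erase]
          refine ⟨?_, Finset.mem_univ _⟩
          intro he
          have : v.1 = 0 := congrArg Fin.val he
          unfold SE at huv
          omega
        · rw [Sym2.eq_swap]
          congr 1
          apply Fin.ext
          change pr v.1 = u.1
          unfold SE at huv
          unfold pr
          split_ifs <;> omega
    intro e he
    induction e with
    | _ u v =>
      rcases he with h | h
      · exact key u v h
      · rw [Sym2.eq_swap]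
        exact key v u h
  have h1 := Set.ncard_le_ncard hsub
  rw [Set.ncard_coe_finset] at h1
  have h2 := Finset.card_union_le A B
  have h3 : A.card ≤ n - 1 := by
    refine Finset.card_image_le.trans ?_
    rw [Finset.card_erase_of_mem (Finset.mem_univ _), Finset.card_univ, Fintype.card_fin]
  have h4 : B.card ≤ n / 4 := by
    refine Finset.card_image_le.trans ?_
    rw [Finset.card_univ, Fintype.card_fin]
  omega

theorem str_lower {n k : ℕ} (hn : 1 ≤ n) (h : TreeDecomp (Str n) k) : n / 4 + 1 ≤ k := by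
  have h1 := lower_count h (q := n / 4) (fun j i => ⟨4 * j.1 + i.1, by omega⟩) ?_ ?_
  · rw [Nat.card_eq_fintype_card, Fintype.card_fin] at h1
    have h2 := str_edges n hn
    omega
  · intro j i j' i' he
    rw [Fin.mk.injEq] at he
    constructor
    · apply Fin.ext
      omega
    · apply Fin.ext
      omega
  · intro j i
    fin_cases i
    · left; unfold SE; left; dsimp; omega
    · left; unfold SE; left; dsimp; omega
    · left; unfold SE; left; dsimp; omega
    · right; unfold SE; right; left; dsimp; omega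

/-! ## The drawing -/

/-- the position of a vertex -/
noncomputable def P (v : ℕ) : ℝ × ℝ :=
  (2 * ((v / 4 : ℕ) : ℝ) + (if v % 4 ≤ 1 then 0 else 1),
    if v % 4 = 0 then 0 else if v % 4 = 3 then 1 else 2)

theorem P0 (b : ℕ) : P (4 * b) = (2 * (b : ℝ), 0) := by
  have h1 : 4 * b / 4 = b := by omega
  have h2 : 4 * b % 4 = 0 := by omega
  unfold P
  rw [h1, h2]
  norm_num

theorem P1 (b : ℕ) : P (4 * b + 1) = (2 * (b : ℝ), 2) := by
  have h1 : (4 * b + 1) / 4 = b := by omega
  have h2 : (4 * b + 1) % 4 = 1 := by omega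
  unfold P
  rw [h1, h2]
  norm_num

theorem P2 (b : ℕ) : P (4 * b + 2) = (2 * (b : ℝ) + 1, 2) := by
  have h1 : (4 * b + 2) / 4 = b := by omega
  have h2 : (4 * b + 2) % 4 = 2 := by omega
  unfold P
  rw [h1, h2]
  norm_num

theorem P3 (b : ℕ) : P (4 * b + 3) = (2 * (b : ℝ) + 1, 1) := by
  have h1 : (4 * b + 3) / 4 = b := by omega
  have h2 : (4 * b + 3) % 4 = 3 := by omega
  unfold P
  rw [h1, h2]
  norm_num

/-- the types of edges -/
inductive Ty | A | B | C | D | L

/-- the ends of an edge -/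
def en : Ty → ℕ → ℕ × ℕ
  | .A, b => (4 * b, 4 * b + 1)
  | .B, b => (4 * b + 1, 4 * b + 2)
  | .C, b => (4 * b + 2, 4 * b + 3)
  | .D, b => (4 * b, 4 * b + 3)
  | .L, b => (4 * b, 4 * (b + 1))

/-- the points of an edge -/
def Reg : Ty → ℕ → ℝ × ℝ → Prop
  | .A, b, q => q.1 = 2 * b ∧ 0 ≤ q.2 ∧ q.2 ≤ 2
  | .B, b, q => q.2 = 2 ∧ 2 * b ≤ q.1 ∧ q.1 ≤ 2 * b + 1
  | .C, b, q => q.1 = 2 * b + 1 ∧ 1 ≤ q.2 ∧ q.2 ≤ 2
  | .D, b, q => q.2 = q.1 - 2 * b ∧ 2 * b ≤ q.1 ∧ q.1 ≤ 2 * b + 1
  | .L, b, q => q.2 = 0 ∧ 2 * b ≤ q.1 ∧ q.1 ≤ 2 * b + 2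

theorem SE_en {u v : ℕ} (h : SE u v) : ∃ t, en t (u / 4) = (u, v) := by
  unfold SE at h
  by_cases h1 : v = u + 4
  · exact ⟨.L, by simp only [en, Prod.mk.injEq]; omega⟩
  by_cases h2 : v = u + 3
  · exact ⟨.D, by simp only [en, Prod.mk.injEq]; omega⟩
  have h3 : v = u + 1 ∧ u % 4 ≠ 3 := by omega
  have h4 : u % 4 = 0 ∨ u % 4 = 1 ∨ u % 4 = 2 := by omega
  rcases h4 with h4 | h4 | h4
  · exact ⟨.A, by simp only [en, Prod.mk.injEq]; omega⟩
  · exact ⟨.B, by simp only [en, Prod.mk.injEq]; omega⟩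
  · exact ⟨.C, by simp only [en, Prod.mk.injEq]; omega⟩

theorem reg_of_mem {t : Ty} {b : ℕ} {q : ℝ × ℝ}
    (h : q ∈ segment ℝ (P (en t b).1) (P (en t b).2)) : Reg t b q := by
  rw [segment_eq_image] at h
  obtain ⟨s, ⟨h0, h1⟩, rfl⟩ := h
  cases t with
  | A =>
    simp only [en, Reg, P0, P1, Prod.smul_mk, Prod.mk_add_mk, smul_eq_mul]
    refine ⟨by ring, by nlinarith, by nlinarith⟩
  | B =>
    simp only [en, Reg, P1, P2, Prod.smul_mk, Prod.mk_add_mk, smul_eq_mul]
    refine ⟨by ring, by nlinarith, by nlinarith⟩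
  | C =>
    simp only [en, Reg, P2, P3, Prod.smul_mk, Prod.mk_add_mk, smul_eq_mul]
    refine ⟨by ring, by nlinarith, by nlinarith⟩
  | D =>
    simp only [en, Reg, P0, P3, Prod.smul_mk, Prod.mk_add_mk, smul_eq_mul]
    refine ⟨by ring, by nlinarith, by nlinarith⟩
  | L =>
    simp only [en, Reg, P0, Prod.smul_mk, Prod.mk_add_mk, smul_eq_mul]
    push_cast
    refine ⟨by ring, by nlinarith, by nlinarith⟩

/-- two edges share an end which is the point `q` -/
def Share (a b : ℕ × ℕ) (q : ℝ × ℝ) : Prop :=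
  ∃ w, (w = a.1 ∨ w = a.2) ∧ (w = b.1 ∨ w = b.2) ∧ q = P w

theorem Share.symm {a b : ℕ × ℕ} {q : ℝ × ℝ} (h : Share a b q) : Share b a q := by
  obtain ⟨w, h1, h2, h3⟩ := h
  exact ⟨w, h2, h1, h3⟩

theorem share_same {t t' : Ty} (b : ℕ) {q : ℝ × ℝ} (htt : t ≠ t') (h : Reg t b q)
    (h' : Reg t' b q) : Share (en t b) (en t' b) q := by
  obtain ⟨x, y⟩ := q
  have k0 : x = 2 * b → y = 0 → (x, y) = P (4 * b) := by
    intro h1 h2; rw [P0, h1, h2]
  have k1 : x = 2 * b → y = 2 → (x, y) = P (4 * b + 1) := by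
    intro h1 h2; rw [P1, h1, h2]
  have k2 : x = 2 * b + 1 → y = 2 → (x, y) = P (4 * b + 2) := by
    intro h1 h2; rw [P2, h1, h2]
  have k3 : x = 2 * b + 1 → y = 1 → (x, y) = P (4 * b + 3) := by
    intro h1 h2; rw [P3, h1, h2]
  cases t <;> cases t' <;> simp only [Reg] at h h' <;>
    first
    | exact absurd rfl htt
    | (exfalso; linarith)
    | exact ⟨4 * b, by simp [en], by simp [en], k0 (by linarith) (by linarith)⟩
    | exact ⟨4 * b + 1, by simp [en], by simp [en], k1 (by linarith) (by linarith)⟩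
    | exact ⟨4 * b + 2, by simp [en], by simp [en], k2 (by linarith) (by linarith)⟩
    | exact ⟨4 * b + 3, by simp [en], by simp [en], k3 (by linarith) (by linarith)⟩

theorem share_lt {t t' : Ty} {b b' : ℕ} {q : ℝ × ℝ} (hb : b < b') (h : Reg t b q)
    (h' : Reg t' b' q) : Share (en t b) (en t' b') q := by
  obtain ⟨x, y⟩ := q
  have hb1 : (b : ℝ) + 1 ≤ b' := by exact_mod_cast hb
  have k0 : x = 2 * b' → y = 0 → (x, y) = P (4 * b') := by
    intro h1 h2; rw [P0, h1, h2]
  have kb : (b' : ℝ) ≤ b + 1 → b' = b + 1 := by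
    intro h1
    have h2 : (b' : ℝ) = ((b + 1 : ℕ) : ℝ) := by
      push_cast
      linarith
    exact_mod_cast h2
  cases t <;> cases t' <;> simp only [Reg] at h h' <;>
    first
    | (exfalso; linarith)
    | exact ⟨4 * b', Or.inr (by rw [kb (by linarith)]; rfl), by simp [en],
        k0 (by linarith) (by linarith)⟩

theorem share {t t' : Ty} {b b' : ℕ} {q : ℝ × ℝ} (hne : en t b ≠ en t' b') (h : Reg t b q)
    (h' : Reg t' b' q) : Share (en t b) (en t' b') q := by
  rcases lt_trichotomy b b' with hb | hb | hb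
  · exact share_lt hb h h'
  · subst hb
    refine share_same b ?_ h h'
    rintro rfl
    exact hne rfl
  · exact (share_lt hb h' h).symm

theorem mem_end {t : Ty} {b w : ℕ} (h : Reg t b (P w)) : w = (en t b).1 ∨ w = (en t b).2 := by
  obtain ⟨c, hc⟩ : ∃ c, c = w / 4 := ⟨_, rfl⟩
  have hw : w = 4 * c ∨ w = 4 * c + 1 ∨ w = 4 * c + 2 ∨ w = 4 * c + 3 := by omega
  have hlt : b < c → (b : ℝ) + 1 ≤ c := fun h => by exact_mod_cast h
  have hgt : c < b → (c : ℝ) + 1 ≤ b := fun h => by exact_mod_cast h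
  have kb : (c : ℝ) ≤ b + 1 → b < c → c = b + 1 := by
    intro h1 h2
    have h3 : c ≤ b + 1 := by exact_mod_cast h1
    omega
  rcases lt_trichotomy b c with hb | hb | hb
  · have h1 := hlt hb
    rcases hw with rfl | rfl | rfl | rfl <;> cases t <;>
      simp only [Reg, P0, P1, P2, P3] at h <;>
      first
      | (exfalso; linarith)
      | exact Or.inr (by rw [kb (by linarith) hb]; rfl)
  · subst hb
    rcases hw with rfl | rfl | rfl | rfl <;> cases t <;>
      simp only [Reg, P0, P1, P2, P3] at h <;>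
      first
      | (exfalso; linarith)
      | exact Or.inl rfl
      | exact Or.inr rfl
  · have h1 := hgt hb
    rcases hw with rfl | rfl | rfl | rfl <;> cases t <;>
      simp only [Reg, P0, P1, P2, P3] at h <;> (exfalso; linarith)

theorem P_inj : Function.Injective P := by
  intro u v h
  obtain ⟨c, hc⟩ : ∃ c, c = u / 4 := ⟨_, rfl⟩
  obtain ⟨d, hd⟩ : ∃ d, d = v / 4 := ⟨_, rfl⟩
  have hu : u = 4 * c ∨ u = 4 * c + 1 ∨ u = 4 * c + 2 ∨ u = 4 * c + 3 := by omega
  have hv : v = 4 * d ∨ v = 4 * d + 1 ∨ v = 4 * d + 2 ∨ v = 4 * d + 3 := by omega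
  have hcd : ∀ x y : ℕ, (x : ℝ) = y → x = y := fun x y h => by exact_mod_cast h
  have hne : ∀ x y : ℕ, (2 : ℝ) * x ≠ 2 * y + 1 := by
    intro x y h
    have : 2 * x = 2 * y + 1 := by exact_mod_cast h
    omega
  rcases hu with rfl | rfl | rfl | rfl <;> rcases hv with rfl | rfl | rfl | rfl <;>
    simp only [P0, P1, P2, P3, Prod.mk.injEq] at h <;>
    first
    | (exfalso; have h2 := h.2; norm_num at h2; done)
    | exact absurd h.1 (hne _ _)
    | exact absurd h.1.symm (hne _ _)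
    | (rw [hcd c d (by linarith)])

theorem str_drawing (n : ℕ) : HasStraightLineDrawing (Str n) := by
  have key : ∀ (u v : Fin n) (q : ℝ × ℝ), (Str n).Adj u v → q ∈ segment ℝ (P u) (P v) →
      ∃ t b, Reg t b q ∧ s((en t b).1, (en t b).2) = s(u.1, v.1) := by
    intro u v q huv hq
    rcases huv with h | h
    · obtain ⟨t, ht⟩ := SE_en h
      refine ⟨t, u.1 / 4, reg_of_mem ?_, ?_⟩
      · rw [ht]; exact hq
      · rw [ht]
    · obtain ⟨t, ht⟩ := SE_en h
      refine ⟨t, v.1 / 4, reg_of_mem ?_, ?_⟩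
      · rw [ht, segment_symm]; exact hq
      · rw [ht, Sym2.eq_swap]
  refine ⟨fun v => P v.1, fun u v h => Fin.ext (P_inj h), ?_, ?_⟩
  · intro u v w huv hw
    obtain ⟨t, b, hr, he⟩ := key u v _ huv hw
    have h1 := mem_end hr
    rw [Sym2.eq_iff] at he
    rcases he with ⟨h2, h3⟩ | ⟨h2, h3⟩
    · rcases h1 with h1 | h1
      · exact Or.inl (Fin.ext (h1.trans h2))
      · exact Or.inr (Fin.ext (h1.trans h3))
    · rcases h1 with h1 | h1
      · exact Or.inr (Fin.ext (h1.trans h2))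
      · exact Or.inl (Fin.ext (h1.trans h3))
  · intro u v x y huv hxy hne q hq hq'
    obtain ⟨t, b, hr, he⟩ := key u v _ huv hq
    obtain ⟨t', b', hr', he'⟩ := key x y _ hxy hq'
    have hen : en t b ≠ en t' b' := by
      intro h
      apply hne
      rw [h, he'] at he
      rw [Sym2.eq_iff] at he ⊢
      rcases he with ⟨h1, h2⟩ | ⟨h1, h2⟩
      · exact Or.inl ⟨Fin.ext h1.symm, Fin.ext h2.symm⟩
      · exact Or.inr ⟨Fin.ext h2.symm, Fin.ext h1.symm⟩
    obtain ⟨w, h1, h2, h3⟩ := share hen hr hr'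
    have h4 : w = u.1 ∨ w = v.1 := by
      rw [Sym2.eq_iff] at he
      rcases he with ⟨h5, h6⟩ | ⟨h5, h6⟩ <;> rcases h1 with h1 | h1
      · exact Or.inl (h1.trans h5)
      · exact Or.inr (h1.trans h6)
      · exact Or.inr (h1.trans h5)
      · exact Or.inl (h1.trans h6)
    have h5 : w = x.1 ∨ w = y.1 := by
      rw [Sym2.eq_iff] at he'
      rcases he' with ⟨h5, h6⟩ | ⟨h5, h6⟩ <;> rcases h2 with h2 | h2
      · exact Or.inl (h2.trans h5)
      · exact Or.inr (h2.trans h6)
      · exact Or.inr (h2.trans h5)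
      · exact Or.inl (h2.trans h6)
    have hwn : w < n := by
      rcases h4 with h | h
      · rw [h]; exact u.2
      · rw [h]; exact v.2
    refine ⟨⟨w, hwn⟩, ?_, ?_, h3⟩
    · rcases h4 with h | h
      · exact Or.inl (Fin.ext h)
      · exact Or.inr (Fin.ext h)
    · rcases h5 with h | h
      · exact Or.inl (Fin.ext h)
      · exact Or.inr (Fin.ext h)

end Pool.Agent.W2helper97.TT
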