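import Pool.Agent.W2helper97.TT.Claims

/-!
# The structure of an optimal pair: two components with two edges
-/

set_option autoImplicit false

namespace Pool.Agent.W2helper97.TT

open SimpleGraph

variable {V : Type}

theorem two_disjoint {F : SimpleGraph V} {a b c a' b' c' : V} (hs : Two F a b c)
    (hs' : Two F a' b' c') (hb : b ≠ b') : a' ≠ a ∧ a' ≠ b ∧ b' ≠ a ∧ c' ≠ a ∧ c' ≠ b := by
  refine ⟨?_, ?_, ?_, ?_, ?_⟩
  · rintro rfl
    exact hb ((hs.left _ hs'.adj).symm)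
  · rintro rfl
    have h1 := hs'.left _ hs.adj.symm
    have h2 := hs'.left _ hs.adj'.symm
    exact hs.ne (h1.trans h2.symm)
  · rintro rfl
    have h1 := hs.left _ hs'.adj.symm
    have h2 := hs.left _ hs'.adj'.symm
    exact hs'.ne (h1.trans h2.symm)
  · rintro rfl
    exact hb ((hs.left _ hs'.adj').symm)
  · rintro rfl
    have h1 := hs'.right _ hs.adj.symm
    have h2 := hs'.right _ hs.adj'.symm
    exact hs.ne (h1.trans h2.symm)

theorem ne_of_support {F : SimpleGraph V} {x z : V} (hx : x ∈ F.support) (hz : z ∉ F.support) :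
    x ≠ z := by
  rintro rfl
  exact hz hx

variable [Finite V]

theorem claimE1 {G T F : SimpleGraph V} (h : Min1 G T F) {a b c a' b' c' : V} (hs : Two F a b c)
    (hs' : Two F a' b' c') (hb : b ≠ b') {L L' : ℕ} {p p' : ℕ → V} (hp : PathFn T (L + 1) p)
    (h0 : p 0 = a) (hL : p (L + 1) = b) (hp' : PathFn T (L' + 1) p') (h0' : p' 0 = a')
    (hL' : p' (L' + 1) = b') (hy : p' (L' - 1) ≠ b) : p L ≠ p' L' := by
  intro hz
  obtain ⟨hL0, hzs⟩ := claimC h hs hp h0 hL
  obtain ⟨hL0', -⟩ := claimC h hs' hp' h0' hL'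
  obtain ⟨d1, d2, d3, d4, d5⟩ := two_disjoint hs hs' hb
  have hne' : p L ≠ p (L + 1) := (hp.adj L (by omega)).ne
  have hnr : ¬ (F.deleteEdges {s(p 0, p (L + 1))}).Reachable (p L) (p (L + 1)) :=
    not_reachable_of_isolated (isolated_of_notMem hzs _ _) hne'
  have hgood := sw_good h.good hp (by rw [h0, hL]; exact hs.adj) (show L < L + 1 by omega) hnr
  rw [h0, hL] at hgood
  rw [hL] at hne'
  have hM : Min1 G (sw T (p L) b a b) (sw F a b (p L) b) :=
    ⟨hgood, fun T' F' h' => (le_of_leaf hs.adj hs.left ⟨a, hs.adj.symm⟩ hs.adj.ne.symm).trans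
      (h.min T' F' h')⟩
  have ha's : a' ∈ F.support := ⟨b', hs'.adj⟩
  have hb's : b' ∈ F.support := ⟨a', hs'.adj.symm⟩
  have hc's : c' ∈ F.support := ⟨b', hs'.adj'⟩
  have hs'' : Two (sw F a b (p L) b) a' b' c' :=
    hs'.sw ⟨d1, d2, ne_of_support ha's hzs, d2⟩ ⟨d3, hb.symm, ne_of_support hb's hzs, hb.symm⟩
      ⟨d4, d5, ne_of_support hc's hzs, d5⟩
  have hp'' : PathFn (sw T (p L) b a b) (L' + 1) p' := by
    apply hp'.sw
    intro l hl he
    rw [Sym2.eq_iff, hz] at he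
    rcases he with ⟨h1, h2⟩ | ⟨h1, h2⟩
    · have := hp'.inj _ _ (by omega) (by omega) h1
      subst this
      exact hb (h2.symm.trans hL')
    · have := hp'.inj _ _ (by omega) (by omega) h2
      have hl' : l = L' - 1 := by omega
      rw [hl'] at h1
      exact hy h1
  apply (claimC hM hs'' hp'' h0' hL').2
  rw [← hz]
  exact left_mem_support_sw hne'

/-- **Claim E.** The private vertices of two components with two edges are different. -/
theorem claimE {G T F : SimpleGraph V} (h : Min2 G T F) {a b c a' b' c' : V} (hs : Two F a b c)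
    (hs' : Two F a' b' c') (hb : b ≠ b') {L L' : ℕ} {p p' : ℕ → V} (hp : PathFn T (L + 1) p)
    (h0 : p 0 = a) (hL : p (L + 1) = b) (hp' : PathFn T (L' + 1) p') (h0' : p' 0 = a')
    (hL' : p' (L' + 1) = b') : p L ≠ p' L' := by
  intro hz
  by_cases hy' : p' (L' - 1) ≠ b
  · exact claimE1 h.min1 hs hs' hb hp h0 hL hp' h0' hL' hy' hz
  by_cases hy : p (L - 1) ≠ b'
  · exact claimE1 h.min1 hs' hs hb.symm hp' h0' hL' hp h0 hL hy hz.symm
  push Not at hy hy'
  obtain ⟨hL0, hzs⟩ := claimC h.min1 hs hp h0 hL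
  obtain ⟨d1, d2, d3, d4, d5⟩ := two_disjoint hs hs' hb
  obtain ⟨e1, e2, e3, e4, e5⟩ := two_disjoint hs' hs hb.symm
  have hL1 : L - 1 + 1 = L := by omega
  have hne' : p (L - 1) ≠ p (L - 1 + 1) := (hp.adj (L - 1) (by omega)).ne
  have hnr : ¬ (F.deleteEdges {s(p 0, p (L + 1))}).Reachable (p (L - 1)) (p (L - 1 + 1)) := by
    intro hr
    exact not_reachable_of_isolated (isolated_of_notMem (by rw [hL1]; exact hzs) _ _) hne'.symm
      hr.symm
  have hgood := sw_good h.min1.good hp (by rw [h0, hL]; exact hs.adj)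
    (show L - 1 < L + 1 by omega) hnr
  rw [h0, hL, hL1, hy] at hgood
  rw [hL1, hy] at hne'
  obtain ⟨z, hzdef⟩ : ∃ z, z = p L := ⟨_, rfl⟩
  rw [← hzdef] at hgood hne' hzs
  have ha's : a' ∈ F.support := ⟨b', hs'.adj⟩
  have hb's : b' ∈ F.support := ⟨a', hs'.adj.symm⟩
  have hc's : c' ∈ F.support := ⟨b', hs'.adj'⟩
  have has : a ∈ F.support := ⟨b, hs.adj⟩
  have hbs : b ∈ F.support := ⟨a, hs.adj.symm⟩
  have hcs : c ∈ F.support := ⟨b, hs.adj'⟩
  have haz := ne_of_support has hzs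
  have hbz := ne_of_support hbs hzs
  have hcz := ne_of_support hcs hzs
  have ha'z := ne_of_support ha's hzs
  have hb'z := ne_of_support hb's hzs
  have hc'z := ne_of_support hc's hzs
  have hle : (sw F a b b' z).support.ncard ≤ F.support.ncard := by
    rw [sw_swap]
    exact le_of_leaf hs.adj hs.left hb's d3
  have hN := h.min _ _ hgood hle
  -- neighbours after the exchange
  have hna : ∀ x, ¬ (sw F a b b' z).Adj a x := by
    intro x hx
    rw [sw_adj] at hx
    rcases hx with ⟨h1, h2⟩ | ⟨h1, -⟩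
    · exact h2 (by rw [hs.left x h1])
    · rw [Sym2.eq_iff] at h1
      rcases h1 with ⟨h1, -⟩ | ⟨h1, -⟩
      · exact d3 h1.symm
      · exact haz h1
  have hnb : ∀ x, (sw F a b b' z).Adj b x → x = c := by
    intro x hx
    rw [sw_adj] at hx
    rcases hx with ⟨h1, h2⟩ | ⟨h1, -⟩
    · rcases hs.mid x h1 with rfl | rfl
      · exact absurd Sym2.eq_swap h2
      · rfl
    · rw [Sym2.eq_iff] at h1
      rcases h1 with ⟨h1, -⟩ | ⟨h1, -⟩
      · exact absurd h1 hb
      · exact absurd h1 hbz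
  have hnc : ∀ x, (sw F a b b' z).Adj c x → x = b := by
    intro x hx
    rw [sw_adj] at hx
    rcases hx with ⟨h1, h2⟩ | ⟨h1, -⟩
    · exact hs.right x h1
    · rw [Sym2.eq_iff] at h1
      rcases h1 with ⟨h1, -⟩ | ⟨h1, -⟩
      · exact absurd h1 e5
      · exact absurd h1 hcz
  have hnz : ∀ x, (sw F a b b' z).Adj z x → x = b' := by
    intro x hx
    rw [sw_adj] at hx
    rcases hx with ⟨h1, h2⟩ | ⟨h1, -⟩
    · exact absurd ⟨x, h1⟩ hzs
    · rw [Sym2.eq_iff] at h1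
      rcases h1 with ⟨h1, -⟩ | ⟨-, h1⟩
      · exact absurd h1.symm hb'z
      · exact h1
  have hb'a : (sw F a b b' z).Adj b' a' := by
    rw [sw_adj]
    refine Or.inl ⟨hs'.adj.symm, ?_⟩
    rw [Ne, Sym2.eq_iff]
    rintro (⟨h1, -⟩ | ⟨h1, -⟩)
    · exact d3 h1
    · exact hb h1.symm
  have hb'c : (sw F a b b' z).Adj b' c' := by
    rw [sw_adj]
    refine Or.inl ⟨hs'.adj'.symm, ?_⟩
    rw [Ne, Sym2.eq_iff]
    rintro (⟨h1, -⟩ | ⟨h1, -⟩)
    · exact d3 h1
    · exact hb h1.symm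
  have hb'zz : (sw F a b b' z).Adj b' z := (sw_adj ..).2 (Or.inr ⟨rfl, hb'z⟩)
  have hend : ∀ α β γ, Two (sw F a b b' z) α β γ →
      (β ≠ a ∧ β ≠ b ∧ β ≠ b' ∧ β ≠ z) ∧ (α ≠ a ∧ α ≠ b ∧ α ≠ b' ∧ α ≠ z) := by
    intro α β γ ht
    have hβa : β ≠ a := by
      rintro rfl
      exact hna _ ht.adj.symm
    have hβb : β ≠ b := by
      rintro rfl
      exact ht.ne ((hnb _ ht.adj.symm).trans (hnb _ ht.adj'.symm).symm)
    have hβz : β ≠ z := by
      rintro rfl
      exact ht.ne ((hnz _ ht.adj.symm).trans (hnz _ ht.adj'.symm).symm)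
    have hβb' : β ≠ b' := by
      rintro rfl
      have h1 := ht.mid _ hb'a
      have h2 := ht.mid _ hb'c
      have h3 := ht.mid _ hb'zz
      have h4 := hs'.ne
      rcases h1 with h1 | h1 <;> rcases h2 with h2 | h2 <;> rcases h3 with h3 | h3
      · exact h4 (h1.trans h2.symm)
      · exact h4 (h1.trans h2.symm)
      · exact ha'z (h1.trans h3.symm)
      · exact hc'z (h2.trans h3.symm)
      · exact hc'z (h2.trans h3.symm)
      · exact ha'z (h1.trans h3.symm)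
      · exact h4 (h1.trans h2.symm)
      · exact h4 (h1.trans h2.symm)
    refine ⟨⟨hβa, hβb, hβb', hβz⟩, ?_, ?_, ?_, ?_⟩
    · rintro rfl
      exact hna _ ht.adj
    · rintro rfl
      have h1 := hnb _ ht.adj
      subst h1
      exact ht.ne ((hnc _ ht.adj'.symm).symm ▸ rfl)
    · rintro rfl
      exact hs'.ne ((ht.left _ hb'a).trans (ht.left _ hb'c).symm)
    · rintro rfl
      exact hβb' (hnz _ ht.adj)
  have hsub : {β | ∃ α γ, Two (sw F a b b' z) α β γ} ⊆ {β | ∃ α γ, Two F α β γ} \ {b} := by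
    rintro β ⟨α, γ, ht⟩
    obtain ⟨⟨h1, h2, h3, h4⟩, h5, h6, h7, h8⟩ := hend α β γ ht
    obtain ⟨-, g5, g6, g7, g8⟩ := hend γ β α ht.symm
    refine ⟨⟨α, γ, ?_⟩, h2⟩
    exact ⟨(sw_adj_iff h5 h6 h7 h8).1 ht.adj, (sw_adj_iff g5 g6 g7 g8).1 ht.adj', ht.ne,
      fun x hx => ht.left x ((sw_adj_iff h5 h6 h7 h8).2 hx),
      fun x hx => ht.right x ((sw_adj_iff g5 g6 g7 g8).2 hx),
      fun x hx => ht.mid x ((sw_adj_iff h1 h2 h3 h4).2 hx)⟩
  have h1 := Set.ncard_le_ncard hsub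
  have h2 : ({β | ∃ α γ, Two F α β γ} \ {b}).ncard + 1 = {β | ∃ α γ, Two F α β γ}.ncard :=
    Set.ncard_sdiff_singleton_add_one ⟨a, c, hs⟩
  unfold N2 at hN
  omega

end Pool.Agent.W2helper97.TT
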