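import Pool.Agent.W2helper97.TT.Swap

/-!
# The structure of an optimal pair of a spanning tree and a forest
-/

set_option autoImplicit false

namespace Pool.Agent.W2helper97.TT

open SimpleGraph

variable {V : Type}

/-- `{a, b}` is a component of `F` with one edge. -/
structure Single (F : SimpleGraph V) (a b : V) : Prop where
  adj : F.Adj a b
  left : ∀ x, F.Adj a x → x = b
  right : ∀ x, F.Adj b x → x = a

/-- `{a, b, c}` is a component of `F` with the two edges `ab` and `bc`. -/
structure Two (F : SimpleGraph V) (a b c : V) : Prop where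
  adj : F.Adj a b
  adj' : F.Adj c b
  ne : a ≠ c
  left : ∀ x, F.Adj a x → x = b
  right : ∀ x, F.Adj c x → x = b
  mid : ∀ x, F.Adj b x → x = a ∨ x = c

/-- the number of components with two edges -/
noncomputable def N2 (F : SimpleGraph V) : ℕ := {b | ∃ a c, Two F a b c}.ncard

/-- the support of the forest is as small as possible -/
structure Min1 (G T F : SimpleGraph V) : Prop where
  good : Good G T F
  min : ∀ T' F', Good G T' F' → F.support.ncard ≤ F'.support.ncard

/-- and then the number of components with two edges is as small as possible -/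
structure Min2 (G T F : SimpleGraph V) : Prop where
  min1 : Min1 G T F
  min : ∀ T' F', Good G T' F' → F'.support.ncard ≤ F.support.ncard → N2 F ≤ N2 F'

theorem Single.symm {F : SimpleGraph V} {a b : V} (h : Single F a b) : Single F b a :=
  ⟨h.adj.symm, h.right, h.left⟩

theorem Two.symm {F : SimpleGraph V} {a b c : V} (h : Two F a b c) : Two F c b a :=
  ⟨h.adj', h.adj, h.ne.symm, h.right, h.left, fun x hx => (h.mid x hx).symm⟩

theorem mem_support_left {F : SimpleGraph V} {a b : V} (h : F.Adj a b) : a ∈ F.support :=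
  ⟨b, h⟩

theorem isolated_of_notMem {F : SimpleGraph V} {x : V} (hx : x ∉ F.support) (a b z : V) :
    ¬ (F.deleteEdges {s(a, b)}).Adj x z := fun h => hx ⟨z, (deleteEdges_adj.1 h).1⟩

theorem isolated_of_leaf {F : SimpleGraph V} {a b : V} (h : ∀ x, F.Adj a x → x = b) (z : V) :
    ¬ (F.deleteEdges {s(a, b)}).Adj a z := by
  intro hz
  rw [deleteEdges_adj] at hz
  apply hz.2
  rw [h z hz.1]
  rfl

/-- the support after an exchange -/
theorem support_sw (F : SimpleGraph V) (a b x y : V) :
    (sw F a b x y).support ⊆ (F.deleteEdges {s(a, b)}).support ∪ {x, y} := by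
  rintro u ⟨v, hv⟩
  change (sw F a b x y).Adj u v at hv
  rw [sw_adj] at hv
  rcases hv with hv | ⟨hv, -⟩
  · exact Or.inl ⟨v, deleteEdges_adj.2 hv⟩
  · right
    rw [Sym2.eq_iff] at hv
    rcases hv with ⟨h, -⟩ | ⟨h, -⟩
    · exact Or.inl h
    · exact Or.inr h

theorem left_mem_support_sw {F : SimpleGraph V} {a b x y : V} (hxy : x ≠ y) :
    x ∈ (sw F a b x y).support := ⟨y, (sw_adj ..).2 (Or.inr ⟨rfl, hxy⟩)⟩

theorem right_mem_support_sw {F : SimpleGraph V} {a b x y : V} (hxy : x ≠ y) :
    y ∈ (sw F a b x y).support := ⟨x, (sw_adj ..).2 (Or.inr ⟨Sym2.eq_swap, hxy⟩)⟩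

theorem support_del_leaf {F : SimpleGraph V} {a b : V} (h : ∀ x, F.Adj a x → x = b) :
    (F.deleteEdges {s(a, b)}).support ⊆ F.support \ {a} := by
  rintro u ⟨v, hv⟩
  refine ⟨⟨v, (deleteEdges_adj.1 hv).1⟩, ?_⟩
  rintro rfl
  exact isolated_of_leaf h v hv

theorem support_del_single {F : SimpleGraph V} {a b : V} (h : Single F a b) :
    (F.deleteEdges {s(a, b)}).support ⊆ F.support \ {a, b} := by
  rintro u ⟨v, hv⟩
  refine ⟨⟨v, (deleteEdges_adj.1 hv).1⟩, ?_⟩
  rintro (rfl | h')
  · exact isolated_of_leaf h.left v hv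
  · rw [Set.mem_singleton_iff] at h'
    subst h'
    rw [Sym2.eq_swap] at hv
    exact isolated_of_leaf h.right v hv

variable [Finite V]

theorem card_single {F : SimpleGraph V} {a b : V} (h : Single F a b) :
    (F.support \ {a, b}).ncard + 2 = F.support.ncard := by
  rw [← Set.ncard_pair h.adj.ne]
  refine Set.ncard_sdiff_add_ncard_of_subset ?_ (Set.toFinite _)
  rintro x (rfl | hx)
  · exact ⟨b, h.adj⟩
  · rw [Set.mem_singleton_iff] at hx
    subst hx
    exact ⟨a, h.adj.symm⟩

theorem card_leaf {F : SimpleGraph V} {a b : V} (h : F.Adj a b) :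
    (F.support \ {a}).ncard + 1 = F.support.ncard :=
  Set.ncard_sdiff_singleton_add_one ⟨b, h⟩

omit [Finite V] in
theorem ncard_insert_two_le {S : Set V} {x y : V} : (S ∪ {x, y}).ncard ≤ S.ncard + 2 := by
  refine (Set.ncard_union_le _ _).trans ?_
  have : ({x, y} : Set V).ncard ≤ 2 := (Set.ncard_insert_le _ _).trans (by simp)
  omega

/-- exchanging a single edge never enlarges the support -/
theorem le_of_single {F : SimpleGraph V} {a b x y : V} (h : Single F a b) :
    (sw F a b x y).support.ncard ≤ F.support.ncard := by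
  have h1 := Set.ncard_le_ncard ((support_sw F a b x y).trans
    (Set.union_subset_union_left _ (support_del_single h)))
  have h2 := card_single h
  have h3 := ncard_insert_two_le (S := F.support \ {a, b}) (x := x) (y := y)
  omega

/-- exchanging a leaf edge for an edge with an end in the remaining support -/
theorem le_of_leaf {F : SimpleGraph V} {a b x y : V} (hab : F.Adj a b)
    (h : ∀ z, F.Adj a z → z = b) (hy : y ∈ F.support) (hya : y ≠ a) :
    (sw F a b x y).support.ncard ≤ F.support.ncard := by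
  have h1 : (sw F a b x y).support ⊆ (F.support \ {a}) ∪ {x} := by
    intro u hu
    rcases support_sw F a b x y hu with h1 | h1
    · exact Or.inl (support_del_leaf h h1)
    · rcases h1 with h1 | h1
      · exact Or.inr h1
      · rw [Set.mem_singleton_iff] at h1
        subst h1
        exact Or.inl ⟨hy, hya⟩
  have h2 := Set.ncard_le_ncard h1
  have h3 := card_leaf hab
  have h4 := Set.ncard_union_le (F.support \ {a}) {x}
  rw [Set.ncard_singleton] at h4
  omega

omit [Finite V] in
theorem sw_swap (F : SimpleGraph V) (a b x y : V) : sw F a b x y = sw F a b y x := by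
  unfold sw
  rw [edge_comm]

/-- **Claim A.** The interior vertices of the tree path between the ends of a component with one
edge are not in the support of the forest. -/
theorem claimA {G T F : SimpleGraph V} (h : Min1 G T F) {a b : V} (hs : Single F a b) {L : ℕ}
    {p : ℕ → V} (hp : PathFn T L p) (h0 : p 0 = a) (hL : p L = b) :
    ∀ i, 0 < i → i < L → p i ∉ F.support := by
  intro i
  induction i using Nat.strong_induction_on with
  | _ i ih =>
    intro hi hiL hmem
    obtain ⟨j, rfl⟩ : ∃ j, i = j + 1 := ⟨i - 1, by omega⟩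
    have hne : p j ≠ p (j + 1) := (hp.adj j (by omega)).ne
    have hiso : ∀ z, ¬ (F.deleteEdges {s(a, b)}).Adj (p j) z := by
      rcases Nat.eq_zero_or_pos j with hj | hj
      · subst hj
        rw [h0]
        exact isolated_of_leaf hs.left
      · exact isolated_of_notMem (ih j (by omega) hj (by omega)) a b
    have hnr : ¬ (F.deleteEdges {s(p 0, p L)}).Reachable (p j) (p (j + 1)) := by
      rw [h0, hL]
      exact not_reachable_of_isolated hiso hne
    have hgood := sw_good h.good hp (by rw [h0, hL]; exact hs.adj) (show j < L by omega) hnr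
    rw [h0, hL] at hgood
    have hmin := h.min _ _ hgood
    have hya : p (j + 1) ≠ a := by
      rw [← h0]
      intro he
      have := hp.inj _ _ (by omega) (by omega) he
      omega
    have hyb : p (j + 1) ≠ b := by
      rw [← hL]
      intro he
      have := hp.inj _ _ (by omega) (by omega) he
      omega
    have h1 : (sw F a b (p j) (p (j + 1))).support ⊆ (F.support \ {a, b}) ∪ {p j} := by
      intro u hu
      rcases support_sw F a b (p j) (p (j + 1)) hu with h1 | h1
      · exact Or.inl (support_del_single hs h1)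
      · rcases h1 with h1 | h1
        · exact Or.inr h1
        · rw [Set.mem_singleton_iff] at h1
          subst h1
          refine Or.inl ⟨hmem, ?_⟩
          rintro (h2 | h2)
          · exact hya h2
          · exact hyb h2
    have h2 := Set.ncard_le_ncard h1
    have h3 := card_single hs
    have h4 := Set.ncard_union_le (F.support \ {a, b}) {p j}
    rw [Set.ncard_singleton] at h4
    omega

/-- **Claim C.** The last vertex before the middle vertex on the tree path from a leaf to the middle
vertex of a component with two edges is not in the support. -/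
theorem claimC {G T F : SimpleGraph V} (h : Min1 G T F) {a b c : V} (hs : Two F a b c) {L : ℕ}
    {p : ℕ → V} (hp : PathFn T (L + 1) p) (h0 : p 0 = a) (hL : p (L + 1) = b) :
    0 < L ∧ p L ∉ F.support := by
  have hT := hp.adj L (by omega)
  rw [hL] at hT
  have hL0 : 0 < L := by
    by_contra hcon
    have : L = 0 := by omega
    subst this
    rw [h0] at hT
    exact not_both h.good.disj hT hs.adj
  refine ⟨hL0, ?_⟩
  intro hmem
  have hza : p L ≠ a := by
    rw [← h0]
    intro he
    have := hp.inj _ _ (by omega) (by omega) he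
    omega
  have hzc : p L ≠ c := by
    intro he
    rw [he] at hT
    exact not_both h.good.disj hT hs.adj'
  have hnr : ¬ (F.deleteEdges {s(p 0, p (L + 1))}).Reachable (p L) (p (L + 1)) := by
    rw [h0, hL]
    intro hr
    refine not_reachable_of_closed (F := F.deleteEdges {s(a, b)}) {b, c} ?_ (Or.inl rfl) ?_ hr.symm
    · rintro u v (rfl | hu) huv
      · rw [deleteEdges_adj] at huv
        rcases hs.mid v huv.1 with rfl | rfl
        · exact absurd (show s(u, v) ∈ ({s(v, u)} : Set (Sym2 V)) from Sym2.eq_swap) huv.2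
        · exact Or.inr rfl
      · rw [Set.mem_singleton_iff] at hu
        subst hu
        rw [deleteEdges_adj] at huv
        exact Or.inl (hs.right v huv.1)
    · rintro (h1 | h1)
      · exact hT.ne h1
      · exact hzc h1
  have hgood := sw_good h.good hp (by rw [h0, hL]; exact hs.adj) (show L < L + 1 by omega) hnr
  rw [h0, hL] at hgood
  have hmin := h.min _ _ hgood
  have h1 : (sw F a b (p L) b).support ⊆ F.support \ {a} := by
    intro u hu
    rcases support_sw F a b (p L) b hu with h1 | h1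
    · exact support_del_leaf hs.left h1
    · rcases h1 with h1 | h1
      · subst h1
        exact ⟨hmem, hza⟩
      · rw [Set.mem_singleton_iff] at h1
        subst h1
        exact ⟨⟨a, hs.adj.symm⟩, hs.adj.ne.symm⟩
  have h2 := Set.ncard_le_ncard h1
  have h3 := card_leaf hs.adj
  omega

omit [Finite V] in
/-- the vertices outside the exchange keep their neighbours -/
theorem sw_adj_iff {F : SimpleGraph V} {a b x y u v : V} (h1 : u ≠ a) (h2 : u ≠ b) (h3 : u ≠ x)
    (h4 : u ≠ y) : (sw F a b x y).Adj u v ↔ F.Adj u v := by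
  rw [sw_adj]
  constructor
  · rintro (h | ⟨h, -⟩)
    · exact h.1
    · rw [Sym2.eq_iff] at h
      rcases h with ⟨h, -⟩ | ⟨h, -⟩
      · exact absurd h h3
      · exact absurd h h4
  · intro h
    refine Or.inl ⟨h, ?_⟩
    rw [Ne, Sym2.eq_iff]
    rintro (⟨h, -⟩ | ⟨h, -⟩)
    · exact h1 h
    · exact h2 h

omit [Finite V] in
theorem Single.sw {F : SimpleGraph V} {a b x y a' b' : V} (h : Single F a' b')
    (ha : a' ≠ a ∧ a' ≠ b ∧ a' ≠ x ∧ a' ≠ y) (hb : b' ≠ a ∧ b' ≠ b ∧ b' ≠ x ∧ b' ≠ y) :
    Single (sw F a b x y) a' b' where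
  adj := (sw_adj_iff ha.1 ha.2.1 ha.2.2.1 ha.2.2.2).2 h.adj
  left z hz := h.left z ((sw_adj_iff ha.1 ha.2.1 ha.2.2.1 ha.2.2.2).1 hz)
  right z hz := h.right z ((sw_adj_iff hb.1 hb.2.1 hb.2.2.1 hb.2.2.2).1 hz)

omit [Finite V] in
theorem Two.sw {F : SimpleGraph V} {a b x y a' b' c' : V} (h : Two F a' b' c')
    (ha : a' ≠ a ∧ a' ≠ b ∧ a' ≠ x ∧ a' ≠ y) (hb : b' ≠ a ∧ b' ≠ b ∧ b' ≠ x ∧ b' ≠ y)
    (hc : c' ≠ a ∧ c' ≠ b ∧ c' ≠ x ∧ c' ≠ y) : Two (sw F a b x y) a' b' c' where
  adj := (sw_adj_iff ha.1 ha.2.1 ha.2.2.1 ha.2.2.2).2 h.adj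
  adj' := (sw_adj_iff hc.1 hc.2.1 hc.2.2.1 hc.2.2.2).2 h.adj'
  ne := h.ne
  left z hz := h.left z ((sw_adj_iff ha.1 ha.2.1 ha.2.2.1 ha.2.2.2).1 hz)
  right z hz := h.right z ((sw_adj_iff hc.1 hc.2.1 hc.2.2.1 hc.2.2.2).1 hz)
  mid z hz := h.mid z ((sw_adj_iff hb.1 hb.2.1 hb.2.2.1 hb.2.2.2).1 hz)

omit [Finite V] in
/-- a path which avoids the exchanged edge remains a path -/
theorem PathFn.sw {T : SimpleGraph V} {L : ℕ} {p : ℕ → V} (hp : PathFn T L p) {x y a b : V}
    (h : ∀ i, i < L → s(p i, p (i + 1)) ≠ s(x, y)) : PathFn (sw T x y a b) L p where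
  adj i hi := (sw_adj ..).2 (Or.inl ⟨hp.adj i hi, h i hi⟩)
  inj := hp.inj

/-- **Claim B.** The tree paths of two components with one edge are disjoint. -/
theorem claimB {G T F : SimpleGraph V} (h : Min1 G T F) {a b a' b' : V} (hs : Single F a b)
    (hs' : Single F a' b') (hne : a ≠ a' ∧ a ≠ b' ∧ b ≠ a' ∧ b ≠ b') {L L' : ℕ}
    {p p' : ℕ → V} (hp : PathFn T L p) (h0 : p 0 = a) (hL : p L = b)
    (hp' : PathFn T L' p') (h0' : p' 0 = a') (hL' : p' L' = b') :
    ∀ i j, i ≤ L → j ≤ L' → p i ≠ p' j := by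
  by_contra hcon
  push Not at hcon
  -- the first vertex of `p` on `p'`
  obtain ⟨i, ⟨j, hiL, hjL, hij⟩, hmin⟩ : ∃ i, (∃ j, i ≤ L ∧ j ≤ L' ∧ p i = p' j) ∧
      ∀ k, k < i → ¬ ∃ j, k ≤ L ∧ j ≤ L' ∧ p k = p' j := by
    obtain ⟨i, j, h1, h2, h3⟩ := hcon
    have hex : ∃ i, ∃ j, i ≤ L ∧ j ≤ L' ∧ p i = p' j := ⟨i, j, h1, h2, h3⟩
    classical
    exact ⟨Nat.find hex, Nat.find_spec hex, fun k hk => Nat.find_min hex hk⟩
  have hA := claimA h hs hp h0 hL
  have hA' := claimA h hs' hp' h0' hL'
  have hcase : p i ∉ F.support := by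
    intro hmem
    have hi : i = 0 ∨ i = L := by
      by_contra hc
      push Not at hc
      exact hA i (by omega) (by omega) hmem
    have hj : j = 0 ∨ j = L' := by
      by_contra hc
      push Not at hc
      rw [hij] at hmem
      exact hA' j (by omega) (by omega) hmem
    obtain ⟨n1, n2, n3, n4⟩ := hne
    rcases hi with rfl | rfl <;> rcases hj with rfl | rfl
    · rw [h0, h0'] at hij; exact n1 hij
    · rw [h0, hL'] at hij; exact n2 hij
    · rw [hL, h0'] at hij; exact n3 hij
    · rw [hL, hL'] at hij; exact n4 hij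
  have hi0 : 0 < i := by
    by_contra hc
    have : i = 0 := by omega
    subst this
    rw [h0] at hcase
    exact hcase ⟨b, hs.adj⟩
  have hj0 : 0 < j := by
    by_contra hc
    have : j = 0 := by omega
    subst this
    rw [hij, h0'] at hcase
    exact hcase ⟨b', hs'.adj⟩
  have hj1 : j < L' := by
    by_contra hc
    have : j = L' := by omega
    subst this
    rw [hij, hL'] at hcase
    exact hcase ⟨a', hs'.adj.symm⟩
  obtain ⟨k, rfl⟩ : ∃ k, i = k + 1 := ⟨i - 1, by omega⟩
  have hx : ∀ l, l ≤ L' → p k ≠ p' l := fun l hl he => hmin k (by omega) ⟨l, by omega, hl, he⟩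
  have hne' : p k ≠ p (k + 1) := (hp.adj k (by omega)).ne
  have hnr : ¬ (F.deleteEdges {s(p 0, p L)}).Reachable (p k) (p (k + 1)) := by
    intro hr
    exact not_reachable_of_isolated (isolated_of_notMem hcase (p 0) (p L)) hne'.symm hr.symm
  have hgood := sw_good h.good hp (by rw [h0, hL]; exact hs.adj) (show k < L by omega) hnr
  rw [h0, hL] at hgood
  have hM : Min1 G (sw T (p k) (p (k + 1)) a b) (sw F a b (p k) (p (k + 1))) :=
    ⟨hgood, fun T' F' h' => (le_of_single hs).trans (h.min T' F' h')⟩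
  have hs'' : Single (sw F a b (p k) (p (k + 1))) a' b' := by
    refine hs'.sw ⟨hne.1.symm, hne.2.2.1.symm, ?_, ?_⟩ ⟨hne.2.1.symm, hne.2.2.2.symm, ?_, ?_⟩
    · rw [← h0']; exact (hx 0 (by omega)).symm
    · rw [hij, ← h0']
      intro he
      have := hp'.inj _ _ (by omega) (by omega) he
      omega
    · rw [← hL']; exact (hx L' le_rfl).symm
    · rw [hij, ← hL']
      intro he
      have := hp'.inj _ _ (by omega) (by omega) he
      omega
  have hp'' : PathFn (sw T (p k) (p (k + 1)) a b) L' p' := by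
    apply hp'.sw
    intro l hl
    rw [Ne, Sym2.eq_iff]
    rintro (⟨h1, -⟩ | ⟨-, h1⟩)
    · exact hx l (by omega) h1.symm
    · exact hx (l + 1) (by omega) h1.symm
  have := claimA hM hs'' hp'' h0' hL' j hj0 hj1
  apply this
  rw [← hij]
  exact right_mem_support_sw hne'

/-- **Claim D.** -/
theorem claimD {G T F : SimpleGraph V} (h : Min1 G T F) {a b c a' b' : V} (hs : Two F a b c)
    (hs' : Single F a' b') {L L' : ℕ}
    {p p' : ℕ → V} (hp : PathFn T (L + 1) p) (h0 : p 0 = a) (hL : p (L + 1) = b)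
    (hp' : PathFn T L' p') (h0' : p' 0 = a') (hL' : p' L' = b') :
    ∀ j, j ≤ L' → p L ≠ p' j := by
  intro j hj hz
  obtain ⟨hL0, hzs⟩ := claimC h hs hp h0 hL
  have hA' := claimA h hs' hp' h0' hL'
  -- the two components are different
  have haa : a ≠ a' ∧ a ≠ b' ∧ b ≠ a' ∧ b ≠ b' ∧ c ≠ a' ∧ c ≠ b' := by
    have hb1 : b ≠ a' := by
      rintro rfl
      have h1 := hs'.left a hs.adj.symm
      have h2 := hs'.left c hs.adj'.symm
      exact hs.ne (h1.trans h2.symm)
    have hb2 : b ≠ b' := by
      rintro rfl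
      have h1 := hs'.right a hs.adj.symm
      have h2 := hs'.right c hs.adj'.symm
      exact hs.ne (h1.trans h2.symm)
    refine ⟨?_, ?_, hb1, hb2, ?_, ?_⟩
    · rintro rfl
      exact hb2 (hs'.left b hs.adj)
    · rintro rfl
      exact hb1 (hs'.right b hs.adj)
    · rintro rfl
      exact hb2 (hs'.left b hs.adj')
    · rintro rfl
      exact hb1 (hs'.right b hs.adj')
  have hsup : ∀ v, v ∈ F.support → v ≠ a' → v ≠ b' → ∀ l, l ≤ L' → v ≠ p' l := by
    intro v hv hva hvb l hl he
    rcases Nat.eq_zero_or_pos l with rfl | hl0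
    · exact hva (he.trans h0')
    · rcases Nat.lt_or_ge l L' with hl1 | hl1
      · rw [he] at hv
        exact hA' l hl0 hl1 hv
      · have : l = L' := by omega
        subst this
        exact hvb (he.trans hL')
  have hva := hsup a ⟨b, hs.adj⟩ haa.1 haa.2.1
  have hvb := hsup b ⟨a, hs.adj.symm⟩ haa.2.2.1 haa.2.2.2.1
  have hvc := hsup c ⟨b, hs.adj'⟩ haa.2.2.2.2.1 haa.2.2.2.2.2
  have hj0 : 0 < j := by
    by_contra hc
    have : j = 0 := by omega
    subst this
    rw [hz, h0'] at hzs
    exact hzs ⟨b', hs'.adj⟩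
  have hj1 : j < L' := by
    by_contra hc
    have : j = L' := by omega
    subst this
    rw [hz, hL'] at hzs
    exact hzs ⟨a', hs'.adj.symm⟩
  -- an edge `p' k, p' (k + 1)` at `z` which is not on `p`
  obtain ⟨k, hk, hkj, hky⟩ : ∃ k, k < L' ∧ (k = j ∨ k + 1 = j) ∧
      ∀ w, (w = p' k ∨ w = p' (k + 1)) → w ≠ p (L - 1) := by
    have hzy : p L ≠ p (L - 1) := by
      intro he
      have := hp.inj _ _ (by omega) (by omega) he
      omega
    by_cases hc : p' (j - 1) = p (L - 1)
    · refine ⟨j, hj1, Or.inl rfl, ?_⟩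
      rintro w (rfl | rfl)
      · rw [← hz]; exact hzy
      · intro he
        have := hp'.inj _ _ (by omega) (by omega) (he.trans hc.symm)
        omega
    · refine ⟨j - 1, by omega, Or.inr (by omega), ?_⟩
      rintro w (rfl | rfl)
      · exact hc
      · rw [show j - 1 + 1 = j by omega, ← hz]; exact hzy
  have hzk : p L = p' k ∨ p L = p' (k + 1) := by
    rcases hkj with rfl | rfl
    · exact Or.inl hz
    · exact Or.inr hz
  have hne' : p' k ≠ p' (k + 1) := (hp'.adj k hk).ne
  have hnr : ¬ (F.deleteEdges {s(p' 0, p' L')}).Reachable (p' k) (p' (k + 1)) := by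
    intro hr
    rcases hzk with hzk | hzk
    · exact not_reachable_of_isolated (isolated_of_notMem (hzk ▸ hzs) (p' 0) (p' L')) hne' hr
    · exact not_reachable_of_isolated (isolated_of_notMem (hzk ▸ hzs) (p' 0) (p' L')) hne'.symm
        hr.symm
  have hgood := sw_good h.good hp' (by rw [h0', hL']; exact hs'.adj) hk hnr
  rw [h0', hL'] at hgood
  have hM : Min1 G (sw T (p' k) (p' (k + 1)) a' b') (sw F a' b' (p' k) (p' (k + 1))) :=
    ⟨hgood, fun T' F' h' => (le_of_single hs').trans (h.min T' F' h')⟩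
  have hs'' : Two (sw F a' b' (p' k) (p' (k + 1))) a b c :=
    hs.sw ⟨haa.1, haa.2.1, hva k (by omega), hva (k + 1) (by omega)⟩
      ⟨haa.2.2.1, haa.2.2.2.1, hvb k (by omega), hvb (k + 1) (by omega)⟩
      ⟨haa.2.2.2.2.1, haa.2.2.2.2.2, hvc k (by omega), hvc (k + 1) (by omega)⟩
  have hp'' : PathFn (sw T (p' k) (p' (k + 1)) a' b') (L + 1) p := by
    apply hp.sw
    intro l hl he
    -- the other end of the edge is not on `p` next to `z`
    have hlz : l = L ∨ l + 1 = L := by
      rw [Sym2.eq_iff] at he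
      rcases hzk with hzk | hzk
      · rcases he with ⟨h1, h2⟩ | ⟨h1, h2⟩
        · left
          exact hp.inj _ _ (by omega) (by omega) (h1.trans hzk.symm)
        · right
          exact hp.inj _ _ (by omega) (by omega) (h2.trans hzk.symm)
      · rcases he with ⟨h1, h2⟩ | ⟨h1, h2⟩
        · right
          exact hp.inj _ _ (by omega) (by omega) (h2.trans hzk.symm)
        · left
          exact hp.inj _ _ (by omega) (by omega) (h1.trans hzk.symm)
    rcases hlz with rfl | hlz
    · -- the edge `z b`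
      rw [hL, Sym2.eq_iff] at he
      rcases he with ⟨-, h2⟩ | ⟨-, h2⟩
      · exact hvb (k + 1) (by omega) h2
      · exact hvb k (by omega) h2
    · have hl' : l = L - 1 := by omega
      rw [Sym2.eq_iff] at he
      rcases he with ⟨h1, -⟩ | ⟨h1, -⟩
      · exact hky _ (Or.inl rfl) (by rw [← hl', h1])
      · exact hky _ (Or.inr rfl) (by rw [← hl', h1])
  apply (claimC hM hs'' hp'' h0 hL).2
  rcases hzk with hzk | hzk
  · rw [hzk]; exact left_mem_support_sw hne'
  · rw [hzk]; exact right_mem_support_sw hne'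

end Pool.Agent.W2helper97.TT
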