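import Pool.Agent.W2helper97.TT.Defs

/-!
# Counting trees in a decomposition
-/

set_option autoImplicit false

namespace Pool.Agent.W2helper97.TT

open SimpleGraph

variable {V : Type}

theorem two_changes {α : Type} (t : Fin 4 → α) (h : ¬ (t 0 = t 1 ∧ t 1 = t 2 ∧ t 2 = t 3)) :
    ∃ i i' : Fin 4, i ≠ i' ∧ t i ≠ t (i + 1) ∧ t i' ≠ t (i' + 1) := by
  have e3 : (3 : Fin 4) + 1 = 0 := by decide
  have e0 : (0 : Fin 4) + 1 = 1 := by decide
  have e1 : (1 : Fin 4) + 1 = 2 := by decide
  have e2 : (2 : Fin 4) + 1 = 3 := by decide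
  by_contra hcon
  push Not at hcon
  have h01 := hcon 0 1 (by decide)
  have h02 := hcon 0 2 (by decide)
  have h03 := hcon 0 3 (by decide)
  have h12 := hcon 1 2 (by decide)
  have h13 := hcon 1 3 (by decide)
  have h23 := hcon 2 3 (by decide)
  rw [e0] at h01 h02 h03
  rw [e1] at h01 h12 h13
  rw [e2] at h02 h12 h23
  rw [e3] at h03 h13 h23
  by_cases a0 : t 0 = t 1
  · by_cases a1 : t 1 = t 2
    · by_cases a2 : t 2 = t 3
      · exact h ⟨a0, a1, a2⟩
      · have := h23 a2
        exact a2 (by rw [this, ← a1, ← a0])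
    · have b1 := h12 a1
      have b2 := h13 a1
      exact a1 (by rw [← a0, ← b2, ← b1])
  · have b1 := h01 a0
    have b2 := h02 a0
    have b3 := h03 a0
    exact a0 (by rw [b1, b2, b3])

/-- the number of edges of a subgraph which is a tree -/
theorem tree_card [Finite V] {G : SimpleGraph V} {H : G.Subgraph} (h : H.coe.IsTree) :
    H.edgeSet.ncard + 1 = H.verts.ncard := by
  have h1 := (isTree_iff_connected_and_card.1 h).2
  rw [← Subgraph.image_coe_edgeSet_coe, Set.ncard_image_of_injective _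
    (Sym2.map.injective Subtype.val_injective), ← Nat.card_coe_set_eq, h1, Nat.card_coe_set_eq]

/-- a tree has no cycle of length four -/
theorem no_four_cycle {G : SimpleGraph V} {H : G.Subgraph} (h : H.coe.IsTree) {a b c d : V}
    (h1 : H.Adj a b) (h2 : H.Adj b c) (h3 : H.Adj c d) (h4 : H.Adj d a) (hac : a ≠ c)
    (hbd : b ≠ d) : False := by
  have ha : a ∈ H.verts := H.edge_vert h1
  have hb : b ∈ H.verts := H.edge_vert h2
  have hc : c ∈ H.verts := H.edge_vert h3
  have hd : d ∈ H.verts := H.edge_vert h4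
  have e1 : H.coe.Adj ⟨a, ha⟩ ⟨b, hb⟩ := h1
  have e2 : H.coe.Adj ⟨b, hb⟩ ⟨c, hc⟩ := h2
  have e3 : H.coe.Adj ⟨a, ha⟩ ⟨d, hd⟩ := h4.symm
  have e4 : H.coe.Adj ⟨d, hd⟩ ⟨c, hc⟩ := h3.symm
  have hne : (⟨a, ha⟩ : H.verts) ≠ ⟨c, hc⟩ := by
    intro he
    exact hac (congrArg Subtype.val he)
  have p1 : (Walk.cons e1 (Walk.cons e2 Walk.nil)).IsPath := by
    rw [Walk.isPath_def]
    simp [e1.ne, hne, e2.ne]
  have p2 : (Walk.cons e3 (Walk.cons e4 Walk.nil)).IsPath := by
    rw [Walk.isPath_def]
    simp [e3.ne, hne, e4.ne]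
  have h5 := (h.isAcyclic.subsingleton_path _ _).elim ⟨_, p1⟩ ⟨_, p2⟩
  rw [Subtype.mk.injEq] at h5
  have h6 := congrArg (fun w => w.support) h5
  simp at h6
  exact hbd h6

/-- **Lower bound.** A graph with `q` vertex-disjoint four-cycles. -/
theorem lower_count [Finite V] {G : SimpleGraph V} {k q : ℕ} (hk : TreeDecomp G k)
    (c : Fin q → Fin 4 → V) (hinj : ∀ j i j' i', c j i = c j' i' → j = j' ∧ i = i')
    (hadj : ∀ j i, G.Adj (c j i) (c j (i + 1))) :
    Nat.card V + 2 * q ≤ G.edgeSet.ncard + k := by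
  classical
  have := Fintype.ofFinite V
  obtain ⟨H, h1, h2, h3⟩ := hk
  -- the number of trees through a vertex
  set nv : V → ℕ := fun v => (Finset.univ.filter (fun i => v ∈ (H i).verts)).card with hnv
  have hpos : ∀ v, 1 ≤ nv v := by
    intro v
    have hv : v ∈ (⨆ i, H i).verts := by rw [h3]; exact Set.mem_univ _
    rw [Subgraph.verts_iSup, Set.mem_iUnion] at hv
    obtain ⟨i, hi⟩ := hv
    exact Finset.card_pos.2 ⟨i, Finset.mem_filter.2 ⟨Finset.mem_univ _, hi⟩⟩
  have htwo : ∀ v i i', i ≠ i' → v ∈ (H i).verts → v ∈ (H i').verts → 2 ≤ nv v := by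
    intro v i i' hne hi hi'
    have : 1 < nv v := Finset.one_lt_card.2 ⟨i, Finset.mem_filter.2 ⟨Finset.mem_univ _, hi⟩, i',
      Finset.mem_filter.2 ⟨Finset.mem_univ _, hi'⟩, hne⟩
    exact this
  -- double counting
  have hsum : ∑ i, (H i).verts.ncard = ∑ v, nv v := by
    have h4 : ∀ i, (H i).verts.ncard = ∑ v : V, if v ∈ (H i).verts then 1 else 0 := by
      intro i
      rw [← Finset.card_filter, ← Set.ncard_coe_finset]
      congr 1
      ext v
      simp
    have h5 : ∀ v, nv v = ∑ i, if v ∈ (H i).verts then 1 else 0 := by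
      intro v
      rw [← Finset.card_filter]
    simp only [h4, h5]
    exact Finset.sum_comm
  have hedges : ∑ i, (H i).edgeSet.ncard ≤ G.edgeSet.ncard := by
    have h4 : ∀ i, (H i).edgeSet.ncard = (H i).edgeSet.toFinset.card := fun i =>
      Set.ncard_eq_toFinset_card' _
    simp only [h4]
    rw [← Finset.card_biUnion, ← Set.ncard_coe_finset]
    · apply Set.ncard_le_ncard _ (Set.toFinite _)
      intro e he
      rw [Finset.mem_coe, Finset.mem_biUnion] at he
      obtain ⟨i, -, hi⟩ := he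
      rw [Set.mem_toFinset] at hi
      exact (H i).edgeSet_subset hi
    · intro i _ j _ hij
      rw [Function.onFun, Set.disjoint_toFinset]
      exact h2 i j hij
  have htrees : ∑ i, (H i).verts.ncard = ∑ i, (H i).edgeSet.ncard + k := by
    have h4 : ∀ i, (H i).verts.ncard = (H i).edgeSet.ncard + 1 := fun i => (tree_card (h1 i)).symm
    simp only [h4]
    rw [Finset.sum_add_distrib, Finset.sum_const, Finset.card_univ, Fintype.card_fin, smul_eq_mul,
      mul_one]
  -- two vertices of every four-cycle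
  have hblock : ∀ j, ∃ e : Fin 2 → Fin 4, Function.Injective e ∧ ∀ x, 2 ≤ nv (c j (e x)) := by
    intro j
    have hex : ∀ i, ∃ t, (H t).Adj (c j i) (c j (i + 1)) := by
      intro i
      have h4 : (⨆ i, H i).Adj (c j i) (c j (i + 1)) := by rw [h3]; exact hadj j i
      rwa [Subgraph.iSup_adj] at h4
    choose t ht using hex
    have hnot : ¬ (t 0 = t 1 ∧ t 1 = t 2 ∧ t 2 = t 3) := by
      rintro ⟨a0, a1, a2⟩
      have b0 : (H (t 3)).Adj (c j 0) (c j 1) := by
        have := ht 0
        rwa [a0, a1, a2] at this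
      have b1 : (H (t 3)).Adj (c j 1) (c j 2) := by
        have := ht 1
        rwa [a1, a2] at this
      have b2 : (H (t 3)).Adj (c j 2) (c j 3) := by
        have := ht 2
        rwa [a2] at this
      have b3 : (H (t 3)).Adj (c j 3) (c j 0) := ht 3
      refine no_four_cycle (h1 (t 3)) b0 b1 b2 b3 ?_ ?_
      · intro he
        exact absurd (hinj _ _ _ _ he).2 (by decide)
      · intro he
        exact absurd (hinj _ _ _ _ he).2 (by decide)
    obtain ⟨i, i', hne, hi, hi'⟩ := two_changes t hnot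
    refine ⟨![i + 1, i' + 1], ?_, ?_⟩
    · intro x y hxy
      fin_cases x <;> fin_cases y
      · rfl
      · exact absurd (add_right_cancel hxy) hne
      · exact absurd (add_right_cancel hxy).symm hne
      · rfl
    · intro x
      fin_cases x
      · exact htwo _ _ _ hi ((H (t i)).edge_vert (ht i).symm) ((H (t (i + 1))).edge_vert (ht (i + 1)))
      · exact htwo _ _ _ hi' ((H (t i')).edge_vert (ht i').symm)
          ((H (t (i' + 1))).edge_vert (ht (i' + 1)))
  choose e he1 he2 using hblock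
  have hD : 2 * q ≤ (Finset.univ.filter (fun v => 2 ≤ nv v)).card := by
    have h4 : ((Finset.univ : Finset (Fin q × Fin 2)).image (fun x => c x.1 (e x.1 x.2))) ⊆
        Finset.univ.filter (fun v => 2 ≤ nv v) := by
      intro v hv
      rw [Finset.mem_image] at hv
      obtain ⟨x, -, rfl⟩ := hv
      exact Finset.mem_filter.2 ⟨Finset.mem_univ _, he2 _ _⟩
    have h5 := Finset.card_le_card h4
    rw [Finset.card_image_of_injective, Finset.card_univ, Fintype.card_prod, Fintype.card_fin,
      Fintype.card_fin] at h5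
    · omega
    · rintro ⟨j, x⟩ ⟨j', x'⟩ hx
      obtain ⟨h6, h7⟩ := hinj _ _ _ _ hx
      dsimp only at h6 h7
      subst h6
      rw [he1 j h7]
  have hsum2 : Fintype.card V + (Finset.univ.filter (fun v => 2 ≤ nv v)).card ≤ ∑ v, nv v := by
    rw [Finset.card_filter, ← Finset.card_univ, Finset.card_eq_sum_ones, ← Finset.sum_add_distrib]
    refine Finset.sum_le_sum fun v _ => ?_
    have := hpos v
    split_ifs with h6
    · omega
    · omega
  rw [Nat.card_eq_fintype_card]
  omega

end Pool.Agent.W2helper97.TT
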