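import Pool.Agent.W2helper97.TT.ClaimE

/-!
# Every component of an optimal forest owns four vertices
-/

set_option autoImplicit false

namespace Pool.Agent.W2helper97.TT

open SimpleGraph

variable {V : Type}

theorem exists_good [Finite V] {G F1 F2 : SimpleGraph V} (hG : G.Connected) (h1 : F1.IsAcyclic)
    (h2 : F2.IsAcyclic) (h : G ≤ F1 ⊔ F2) : ∃ T F, Good G T F := by
  classical
  obtain ⟨T, hT1, hT2, hT3⟩ := Connected.exists_isTree_le_of_le_of_isAcyclic hG
    (H := F1 ⊓ G) inf_le_right (h1.anti inf_le_left)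
  refine ⟨T, G \ T, hT3, h2.anti ?_, ?_, disjoint_sdiff_self_right⟩
  · intro u v huv
    rw [sdiff_adj] at huv
    rcases h huv.1 with h3 | h3
    · exact absurd (hT1 ⟨h3, huv.1⟩) huv.2
    · exact h3
  · rw [sup_sdiff_self_right]
    exact sup_eq_right.2 hT2

theorem exists_min2 {G T F : SimpleGraph V} (h : Good G T F) : ∃ T F, Min2 G T F := by
  have hS : {k | ∃ T F, Good G T F ∧ F.support.ncard = k}.Nonempty := ⟨_, T, F, h, rfl⟩
  obtain ⟨T1, F1, hg1, hk1⟩ := Nat.sInf_mem hS
  have hmin1 : ∀ T' F', Good G T' F' →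
      sInf {k | ∃ T F, Good G T F ∧ F.support.ncard = k} ≤ F'.support.ncard :=
    fun T' F' h' => Nat.sInf_le ⟨T', F', h', rfl⟩
  have hS2 : {m | ∃ T F, Good G T F ∧ F.support.ncard = F1.support.ncard ∧ N2 F = m}.Nonempty :=
    ⟨_, T1, F1, hg1, rfl, rfl⟩
  obtain ⟨T2, F2, hg2, hk2, hm2⟩ := Nat.sInf_mem hS2
  refine ⟨T2, F2, ⟨hg2, ?_⟩, ?_⟩
  · intro T' F' h'
    rw [hk2, hk1]
    exact hmin1 T' F' h'
  · intro T' F' h' hle
    rw [hm2]
    refine Nat.sInf_le ⟨T', F', h', ?_, rfl⟩
    apply le_antisymm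
    · rw [← hk2]; exact hle
    · rw [hk1]; exact hmin1 T' F' h'

theorem exists_path {T : SimpleGraph V} (hT : T.Connected) (u v : V) :
    ∃ L p, PathFn T L p ∧ p 0 = u ∧ p L = v := by
  obtain ⟨w, hw⟩ := (hT.preconnected u v).exists_isPath
  refine ⟨w.length, w.getVert, ⟨fun i hi => w.adj_getVert_succ hi, fun i j hi hj hij => ?_⟩,
    w.getVert_zero, w.getVert_length⟩
  exact hw.getVert_injOn hi hj hij

/-- The vertices outside the support which are owned by a component. -/
inductive Extra (T F : SimpleGraph V) (C : F.ConnectedComponent) : Set V → Prop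
  | big (h : 4 ≤ C.supp.ncard) : Extra T F C ∅
  | single (a b : V) (L : ℕ) (p : ℕ → V) (hs : Single F a b) (ha : a ∈ C.supp) (hb : b ∈ C.supp)
      (hp : PathFn T L p) (h0 : p 0 = a) (hL : p L = b) :
      Extra T F C {v | ∃ i, 0 < i ∧ i < L ∧ v = p i}
  | two (a b c : V) (L : ℕ) (p : ℕ → V) (hs : Two F a b c) (ha : a ∈ C.supp) (hb : b ∈ C.supp)
      (hc : c ∈ C.supp) (hp : PathFn T (L + 1) p) (h0 : p 0 = a) (hL : p (L + 1) = b) :
      Extra T F C {p L}

theorem mem_supp_of_adj {F : SimpleGraph V} {C : F.ConnectedComponent} {a b : V}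
    (h : F.Adj a b) (ha : a ∈ C.supp) : b ∈ C.supp := by
  rw [ConnectedComponent.mem_supp_iff] at ha ⊢
  rw [← ha]
  exact (ConnectedComponent.connectedComponentMk_eq_of_adj h).symm

theorem exists_extra [Finite V] {G T F : SimpleGraph V} (h : Good G T F)
    (C : F.ConnectedComponent) {a b : V} (hab : F.Adj a b) (ha : a ∈ C.supp) :
    ∃ O, Extra T F C O := by
  have hb := mem_supp_of_adj hab ha
  by_cases h4 : 4 ≤ C.supp.ncard
  · exact ⟨_, .big h4⟩
  -- a component with a vertex of degree two
  have htwo : ∀ x y z, F.Adj x y → F.Adj z y → x ≠ z → y ∈ C.supp → ∃ O, Extra T F C O := by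
    intro x y z hxy hzy hxz hy
    have hx := mem_supp_of_adj hxy.symm hy
    have hz := mem_supp_of_adj hzy.symm hy
    have hsub : ({x, y, z} : Set V) ⊆ C.supp := by
      rintro w (rfl | rfl | hw)
      · exact hx
      · exact hy
      · rw [Set.mem_singleton_iff] at hw
        rw [hw]
        exact hz
    have hcard : ({x, y, z} : Set V).ncard = 3 := by
      rw [Set.ncard_eq_three]
      exact ⟨x, y, z, hxy.ne, hxz, hzy.ne.symm, rfl⟩
    have heq := Set.eq_of_subset_of_ncard_le hsub (by omega)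
    have hnxz : ¬ F.Adj x z := by
      intro hxz'
      have h1 : (Walk.cons hxy (Walk.cons hzy.symm Walk.nil)).IsPath := by
        rw [Walk.isPath_def]
        simp [hxy.ne, hxz, hzy.ne.symm]
      have h2 : (Walk.cons hxz' Walk.nil).IsPath := by
        rw [Walk.isPath_def]
        simp [hxz]
      have h3 := (h.acyc.subsingleton_path x z).elim ⟨_, h1⟩ ⟨_, h2⟩
      rw [Subtype.mk.injEq] at h3
      have h4 := congrArg Walk.length h3
      simp at h4
    have hmem : ∀ u w, u ∈ C.supp → F.Adj u w → w = x ∨ w = y ∨ w = z := by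
      intro u w hu huw
      have := mem_supp_of_adj huw hu
      rw [← heq] at this
      exact this
    have hs : Two F x y z := by
      refine ⟨hxy, hzy, hxz, ?_, ?_, ?_⟩
      · intro w hw
        rcases hmem x w hx hw with rfl | rfl | rfl
        · exact absurd rfl hw.ne
        · rfl
        · exact absurd hw hnxz
      · intro w hw
        rcases hmem z w hz hw with rfl | rfl | rfl
        · exact absurd hw.symm hnxz
        · rfl
        · exact absurd rfl hw.ne
      · intro w hw
        rcases hmem y w hy hw with rfl | rfl | rfl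
        · exact Or.inl rfl
        · exact absurd rfl hw.ne
        · exact Or.inr rfl
    obtain ⟨L, p, hp, h0, hL⟩ := exists_path h.tree.connected x y
    rcases Nat.eq_zero_or_pos L with rfl | hL0
    · exact absurd (h0.symm.trans hL) hxy.ne
    · obtain ⟨L, rfl⟩ : ∃ k, L = k + 1 := ⟨L - 1, by omega⟩
      exact ⟨_, .two x y z L p hs hx hy hz hp h0 hL⟩
  by_cases hl : ∀ x, F.Adj a x → x = b
  · by_cases hr : ∀ x, F.Adj b x → x = a
    · obtain ⟨L, p, hp, h0, hL⟩ := exists_path h.tree.connected a b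
      exact ⟨_, .single a b L p ⟨hab, hl, hr⟩ ha hb hp h0 hL⟩
    · push Not at hr
      obtain ⟨c, hc, hca⟩ := hr
      exact htwo a b c hab hc.symm hca.symm hb
  · push Not at hl
    obtain ⟨c, hc, hcb⟩ := hl
    exact htwo b a c hab.symm hc.symm hcb.symm ha

theorem four_le_ncard [Finite V] {S : Set V} {a b c d : V} (ha : a ∈ S) (hb : b ∈ S) (hc : c ∈ S)
    (hd : d ∈ S) (h1 : a ≠ b) (h2 : a ≠ c) (h3 : a ≠ d) (h4 : b ≠ c) (h5 : b ≠ d) (h6 : c ≠ d) :
    4 ≤ S.ncard := by
  have h7 : ({a, b, c, d} : Set V).ncard = 4 := by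
    rw [Set.ncard_insert_of_notMem, Set.ncard_insert_of_notMem, Set.ncard_insert_of_notMem,
      Set.ncard_singleton]
    · simpa using h6
    · simp [h4, h5]
    · simp [h1, h2, h3]
  rw [← h7]
  refine Set.ncard_le_ncard ?_ (Set.toFinite _)
  rintro x (rfl | rfl | rfl | hx)
  · exact ha
  · exact hb
  · exact hc
  · rw [Set.mem_singleton_iff] at hx
    rw [hx]
    exact hd

theorem extra_card [Finite V] {G T F : SimpleGraph V} (h : Min1 G T F) (h3 : G.CliqueFree 3)
    {C : F.ConnectedComponent} {O : Set V} (hO : Extra T F C O) : 4 ≤ (C.supp ∪ O).ncard := by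
  have hTG : T ≤ G := h.good.sup ▸ le_sup_left
  have hFG : F ≤ G := h.good.sup ▸ le_sup_right
  cases hO with
  | big h4 => rwa [Set.union_empty]
  | single a b L p hs ha hb hp h0 hL =>
    have hL0 : L ≠ 0 := by
      rintro rfl
      exact hs.adj.ne (h0.symm.trans hL)
    have hL1 : L ≠ 1 := by
      rintro rfl
      have := hp.adj 0 (by omega)
      rw [h0, hL] at this
      exact not_both h.good.disj this hs.adj
    have hL2 : L ≠ 2 := by
      rintro rfl
      have e1 := hp.adj 0 (by omega)
      have e2 := hp.adj 1 (by omega)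
      rw [h0] at e1
      rw [hL] at e2
      classical
      have e3 := is3Clique_iff (G := G) (s := {a, p 1, b})
      exact h3 _ (e3.2 ⟨a, p 1, b, hTG e1, hFG hs.adj, hTG e2, rfl⟩)
    have hinj : ∀ i j, i ≤ L → j ≤ L → i ≠ j → p i ≠ p j :=
      fun i j hi hj hij he => hij (hp.inj i j hi hj he)
    refine four_le_ncard (a := p 0) (b := p 1) (c := p 2) (d := p L) ?_ ?_ ?_ ?_
      (hinj _ _ (by omega) (by omega) (by omega)) (hinj _ _ (by omega) (by omega) (by omega))
      (hinj _ _ (by omega) (by omega) (by omega)) (hinj _ _ (by omega) (by omega) (by omega))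
      (hinj _ _ (by omega) (by omega) (by omega)) (hinj _ _ (by omega) (by omega) (by omega))
    · rw [h0]; exact Or.inl ha
    · exact Or.inr ⟨1, by omega, by omega, rfl⟩
    · exact Or.inr ⟨2, by omega, by omega, rfl⟩
    · rw [hL]; exact Or.inl hb
  | two a b c L p hs ha hb hc hp h0 hL =>
    have hz := (claimC h hs hp h0 hL).2
    exact four_le_ncard (Or.inl ha) (Or.inl hb) (Or.inl hc) (Or.inr rfl) hs.adj.ne hs.ne
      (ne_of_support ⟨b, hs.adj⟩ hz) hs.adj'.ne.symm (ne_of_support ⟨a, hs.adj.symm⟩ hz)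
      (ne_of_support ⟨b, hs.adj'⟩ hz)

theorem extra_not_support [Finite V] {G T F : SimpleGraph V} (h : Min1 G T F)
    {C : F.ConnectedComponent} {O : Set V} (hO : Extra T F C O) {x : V} (hx : x ∈ O) :
    x ∉ F.support := by
  cases hO with
  | big h4 => exact absurd hx (Set.notMem_empty _)
  | single a b L p hs ha hb hp h0 hL =>
    obtain ⟨i, h1, h2, rfl⟩ := hx
    exact claimA h hs hp h0 hL i h1 h2
  | two a b c L p hs ha hb hc hp h0 hL =>
    rw [Set.mem_singleton_iff] at hx
    rw [hx]
    exact (claimC h hs hp h0 hL).2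

theorem ne_of_comp {F : SimpleGraph V} {C C' : F.ConnectedComponent} (h : C ≠ C') {a b : V}
    (ha : a ∈ C.supp) (hb : b ∈ C'.supp) : a ≠ b := by
  rintro rfl
  rw [ConnectedComponent.mem_supp_iff] at ha hb
  exact h (ha.symm.trans hb)

theorem extra_disjoint [Finite V] {G T F : SimpleGraph V} (h : Min2 G T F)
    {C C' : F.ConnectedComponent} (hC : C ≠ C') {O O' : Set V} (hO : Extra T F C O)
    (hO' : Extra T F C' O') : Disjoint O O' := by
  rw [Set.disjoint_left]
  intro x hx hx'
  cases hO with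
  | big h4 => exact absurd hx (Set.notMem_empty _)
  | single a b L p hs ha hb hp h0 hL =>
    obtain ⟨i, h1, h2, rfl⟩ := hx
    cases hO' with
    | big h4 => exact absurd hx' (Set.notMem_empty _)
    | single a' b' L' p' hs' ha' hb' hp' h0' hL' =>
      obtain ⟨j, h3, h4, h5⟩ := hx'
      exact claimB h.min1 hs hs' ⟨ne_of_comp hC ha ha', ne_of_comp hC ha hb', ne_of_comp hC hb ha',
        ne_of_comp hC hb hb'⟩ hp h0 hL hp' h0' hL' i j h2.le h4.le h5
    | two a' b' c' L' p' hs' ha' hb' hc' hp' h0' hL' =>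
      rw [Set.mem_singleton_iff] at hx'
      exact claimD h.min1 hs' hs hp' h0' hL' hp h0 hL i h2.le hx'.symm
  | two a b c L p hs ha hb hc hp h0 hL =>
    rw [Set.mem_singleton_iff] at hx
    subst hx
    cases hO' with
    | big h4 => exact absurd hx' (Set.notMem_empty _)
    | single a' b' L' p' hs' ha' hb' hp' h0' hL' =>
      obtain ⟨j, h3, h4, h5⟩ := hx'
      exact claimD h.min1 hs hs' hp h0 hL hp' h0' hL' j h4.le h5
    | two a' b' c' L' p' hs' ha' hb' hc' hp' h0' hL' =>
      exact claimE h hs hs' (ne_of_comp hC hb hb') hp h0 hL hp' h0' hL' hx'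

/-- the components of a forest with at least one edge -/
def Comps (F : SimpleGraph V) : Set F.ConnectedComponent := {C | ∃ a b, F.Adj a b ∧ a ∈ C.supp}

theorem supp_subset_support {F : SimpleGraph V} {C : F.ConnectedComponent} (hC : C ∈ Comps F) :
    C.supp ⊆ F.support := by
  obtain ⟨a, b, hab, ha⟩ := hC
  intro x hx
  by_cases hxa : x = a
  · rw [hxa]; exact ⟨b, hab⟩
  · have h1 : F.Reachable x a := by
      rw [ConnectedComponent.mem_supp_iff] at ha hx
      exact ConnectedComponent.exact (hx.trans ha.symm)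
    obtain ⟨w⟩ := h1
    cases w with
    | nil => exact absurd rfl hxa
    | cons h _ => exact ⟨_, h⟩

/-- **Main counting.** An optimal forest has at most `n / 4` components with an edge. -/
theorem card_comps_le [Finite V] {G T F : SimpleGraph V} (h : Min2 G T F) (h3 : G.CliqueFree 3) :
    4 * Nat.card (Comps F) ≤ Nat.card V := by
  classical
  have hex : ∀ C : Comps F, ∃ O, Extra T F C.1 O := by
    rintro ⟨C, a, b, hab, ha⟩
    exact exists_extra h.min1.good C hab ha
  choose O hO using hex
  have hemb : ∀ C : Comps F, ∃ e : Fin 4 → V, Function.Injective e ∧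
      ∀ i, e i ∈ C.1.supp ∪ O C := by
    intro C
    have h4 := extra_card h.min1 h3 (hO C)
    rw [← Nat.card_coe_set_eq] at h4
    have hf := Fintype.ofFinite (↑(C.1.supp ∪ O C) : Type)
    rw [Nat.card_eq_fintype_card] at h4
    obtain ⟨e⟩ := Function.Embedding.nonempty_of_card_le
      (α := Fin 4) (β := ↑(C.1.supp ∪ O C)) (by simpa using h4)
    exact ⟨fun i => (e i).1, fun i j hij => e.injective (Subtype.ext hij), fun i => (e i).2⟩
  choose e he1 he2 using hemb
  have hinj : Function.Injective (fun q : Comps F × Fin 4 => e q.1 q.2) := by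
    rintro ⟨C, i⟩ ⟨C', j⟩ hij
    have hij' : e C i = e C' j := hij
    by_cases hCC : C = C'
    · subst hCC
      rw [he1 C hij']
    · exfalso
      have hne : C.1 ≠ C'.1 := fun hh => hCC (Subtype.ext hh)
      rcases he2 C i with hi | hi <;> rcases he2 C' j with hj | hj
      · exact ne_of_comp hne hi hj hij'
      · rw [← hij'] at hj
        exact extra_not_support h.min1 (hO C') hj (supp_subset_support C.2 hi)
      · rw [hij'] at hi
        exact extra_not_support h.min1 (hO C) hi (supp_subset_support C'.2 hj)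
      · rw [← hij'] at hj
        exact Set.disjoint_left.1 (extra_disjoint h hne (hO C) (hO C')) hi hj
  have h5 := Nat.card_le_card_of_injective _ hinj
  rw [Nat.card_prod, Nat.card_eq_fintype_card (α := Fin 4), Fintype.card_fin] at h5
  omega

end Pool.Agent.W2helper97.TT
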