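import Mathlib

/-!
# Pairs of a spanning tree and a forest: exchanging edges
-/

set_option autoImplicit false

namespace Pool.Agent.W2helper97.TT

open SimpleGraph

variable {V : Type}

/-- `G` is the edge-disjoint union of the spanning tree `T` and the forest `F`. -/
structure Good (G T F : SimpleGraph V) : Prop where
  tree : T.IsTree
  acyc : F.IsAcyclic
  sup : T ⊔ F = G
  disj : Disjoint T F

/-- `p 0, …, p L` are the vertices of a path of `T`. -/
structure PathFn (T : SimpleGraph V) (L : ℕ) (p : ℕ → V) : Prop where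
  adj : ∀ i, i < L → T.Adj (p i) (p (i + 1))
  inj : ∀ i j, i ≤ L → j ≤ L → p i = p j → i = j

/-- Replace the edge `ab` by the edge `xy`. -/
def sw (F : SimpleGraph V) (a b x y : V) : SimpleGraph V := F.deleteEdges {s(a, b)} ⊔ edge x y

theorem sw_adj (F : SimpleGraph V) (a b x y u v : V) :
    (sw F a b x y).Adj u v ↔ (F.Adj u v ∧ s(u, v) ≠ s(a, b)) ∨ (s(u, v) = s(x, y) ∧ x ≠ y) := by
  unfold sw
  rw [sup_adj, deleteEdges_adj, Set.mem_singleton_iff, adj_edge]
  constructor
  · rintro (h | ⟨h1, h2⟩)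
    · exact Or.inl h
    · right
      refine ⟨h1.symm, ?_⟩
      rintro rfl
      rw [Sym2.eq_iff] at h1
      grind
  · rintro (h | ⟨h1, h2⟩)
    · exact Or.inl h
    · right
      refine ⟨h1.symm, ?_⟩
      rintro rfl
      rw [Sym2.eq_iff] at h1
      grind

theorem not_both {T F : SimpleGraph V} (h : Disjoint T F) {u v : V} (h1 : T.Adj u v)
    (h2 : F.Adj u v) : False := by
  rw [disjoint_iff] at h
  have h3 : (T ⊓ F).Adj u v := ⟨h1, h2⟩
  rw [h] at h3
  exact h3

theorem sw_connected {T : SimpleGraph V} {L : ℕ} {p : ℕ → V} (hT : T.Connected)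
    (hp : PathFn T L p) (h0 : p 0 ≠ p L) {i : ℕ} (hi : i < L) :
    (sw T (p i) (p (i + 1)) (p 0) (p L)).Connected := by
  have := hT.nonempty
  have hdown : ∀ j, j ≤ i → (sw T (p i) (p (i + 1)) (p 0) (p L)).Reachable (p 0) (p j) := by
    intro j
    induction j with
    | zero => intro _; exact Reachable.refl _
    | succ j ih =>
      intro hj
      refine (ih (by omega)).trans (Adj.reachable ?_)
      rw [sw_adj]
      left
      refine ⟨hp.adj j (by omega), ?_⟩
      rw [Ne, Sym2.eq_iff]
      rintro (⟨h1, -⟩ | ⟨h1, h2⟩)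
      · have := hp.inj _ _ (by omega) (by omega) h1
        omega
      · have := hp.inj _ _ (by omega) (by omega) h1
        omega
  have hup : ∀ j, i + 1 ≤ j → j ≤ L →
      (sw T (p i) (p (i + 1)) (p 0) (p L)).Reachable (p (i + 1)) (p j) := by
    intro j hj
    induction j, hj using Nat.le_induction with
    | base => intro _; exact Reachable.refl _
    | succ j hj ih =>
      intro hjL
      refine (ih (by omega)).trans (Adj.reachable ?_)
      rw [sw_adj]
      left
      refine ⟨hp.adj j (by omega), ?_⟩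
      rw [Ne, Sym2.eq_iff]
      rintro (⟨h1, -⟩ | ⟨h1, h2⟩)
      · have := hp.inj _ _ (by omega) (by omega) h1
        omega
      · have := hp.inj _ _ (by omega) (by omega) h2
        omega
  have hxy : (sw T (p i) (p (i + 1)) (p 0) (p L)).Reachable (p i) (p (i + 1)) := by
    refine (hdown i le_rfl).symm.trans (Reachable.trans ?_ (hup L (by omega) le_rfl).symm)
    apply Adj.reachable
    rw [sw_adj]
    exact Or.inr ⟨rfl, h0⟩
  have hadj : ∀ u v, T.Adj u v → (sw T (p i) (p (i + 1)) (p 0) (p L)).Reachable u v := by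
    intro u v huv
    by_cases he : s(u, v) = s(p i, p (i + 1))
    · rw [Sym2.eq_iff] at he
      rcases he with ⟨rfl, rfl⟩ | ⟨rfl, rfl⟩
      · exact hxy
      · exact hxy.symm
    · apply Adj.reachable
      rw [sw_adj]
      exact Or.inl ⟨huv, he⟩
  refine ⟨fun u v => ?_⟩
  obtain ⟨w⟩ := hT.preconnected u v
  induction w with
  | nil => exact Reachable.refl _
  | cons h _ ih => exact (hadj _ _ h).trans ih

theorem sw_edgeSet (F : SimpleGraph V) (a b x y : V) (hxy : x ≠ y) :
    (sw F a b x y).edgeSet = (F.edgeSet \ {s(a, b)}) ∪ {s(x, y)} := by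
  ext e
  induction e with
  | _ u v =>
    rw [mem_edgeSet, sw_adj, Set.mem_union, Set.mem_diff, mem_edgeSet, Set.mem_singleton_iff,
      Set.mem_singleton_iff]
    constructor
    · rintro (h | ⟨h, -⟩)
      · exact Or.inl h
      · exact Or.inr h
    · rintro (h | h)
      · exact Or.inl h
      · exact Or.inr ⟨h, hxy⟩

theorem sw_tree [Finite V] {T : SimpleGraph V} {L : ℕ} {p : ℕ → V} (hT : T.IsTree)
    (hp : PathFn T L p) (h0 : p 0 ≠ p L) (hna : ¬ T.Adj (p 0) (p L)) {i : ℕ} (hi : i < L) :
    (sw T (p i) (p (i + 1)) (p 0) (p L)).IsTree := by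
  rw [isTree_iff_connected_and_card]
  refine ⟨sw_connected hT.connected hp h0 hi, ?_⟩
  have h1 := (isTree_iff_connected_and_card.1 hT).2
  rw [← h1]
  congr 1
  rw [Nat.card_coe_set_eq, Nat.card_coe_set_eq, sw_edgeSet _ _ _ _ _ h0, Set.union_singleton,
    Set.ncard_insert_of_notMem, Set.ncard_diff_singleton_add_one]
  · rw [mem_edgeSet]
    exact hp.adj i hi
  · rintro ⟨h, -⟩
    exact hna h

theorem sw_good [Finite V] {G T F : SimpleGraph V} (h : Good G T F) {L : ℕ} {p : ℕ → V}
    (hp : PathFn T L p) (hab : F.Adj (p 0) (p L)) {i : ℕ} (hi : i < L)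
    (hnr : ¬ (F.deleteEdges {s(p 0, p L)}).Reachable (p i) (p (i + 1))) :
    Good G (sw T (p i) (p (i + 1)) (p 0) (p L)) (sw F (p 0) (p L) (p i) (p (i + 1))) where
  tree := sw_tree h.tree hp hab.ne (fun h' => not_both h.disj h' hab) hi
  acyc := (h.acyc.anti (deleteEdges_le _)).sup_edge_of_not_reachable hnr
  sup := by
    have hT := hp.adj i hi
    rw [← h.sup]
    ext u v
    rw [sup_adj, sup_adj, sw_adj, sw_adj]
    constructor
    · rintro ((h1 | h1) | (h1 | h1))
      · exact Or.inl h1.1
      · right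
        have h2 : s(u, v) ∈ F.edgeSet := by rw [h1.1]; exact hab
        exact h2
      · exact Or.inr h1.1
      · left
        have h2 : s(u, v) ∈ T.edgeSet := by rw [h1.1]; exact hT
        exact h2
    · rintro (h1 | h1)
      · by_cases he : s(u, v) = s(p i, p (i + 1))
        · exact Or.inr (Or.inr ⟨he, hT.ne⟩)
        · exact Or.inl (Or.inl ⟨h1, he⟩)
      · by_cases he : s(u, v) = s(p 0, p L)
        · exact Or.inl (Or.inr ⟨he, hab.ne⟩)
        · exact Or.inr (Or.inl ⟨h1, he⟩)
  disj := by
    have hT := hp.adj i hi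
    rw [disjoint_iff]
    ext u v
    rw [inf_adj, sw_adj, sw_adj, bot_adj, iff_false]
    rintro ⟨h1 | h1, h2 | h2⟩
    · exact not_both h.disj h1.1 h2.1
    · exact h1.2 h2.1
    · exact h2.2 h1.1
    · have h3 : s(p 0, p L) ∈ T.edgeSet := by rw [← h1.1, h2.1]; exact hT
      exact not_both h.disj h3 hab

/-- A vertex without neighbours reaches only itself. -/
theorem not_reachable_of_isolated {F : SimpleGraph V} {x y : V} (hx : ∀ z, ¬ F.Adj x z)
    (hxy : x ≠ y) : ¬ F.Reachable x y := by
  rintro ⟨w⟩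
  cases w with
  | nil => exact hxy rfl
  | cons h _ => exact hx _ h

/-- A closed set of vertices. -/
theorem not_reachable_of_closed {F : SimpleGraph V} {x y : V} (S : Set V)
    (hS : ∀ u v, u ∈ S → F.Adj u v → v ∈ S) (hx : x ∈ S) (hy : y ∉ S) : ¬ F.Reachable x y := by
  rintro ⟨w⟩
  apply hy
  induction w with
  | nil => exact hx
  | cons h _ ih => exact ih (hS _ _ hx h) hy

end Pool.Agent.W2helper97.TT
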